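import Pool.Agent.X282.BW.Fin

/-!
The critical points of `fn` are real and lie in the annuli.
-/

set_option autoImplicit false

open Filter Topology Metric Set

namespace Pool.Agent.X282.BW

noncomputable section

theorem b_ne (n : ℕ) : (b n : ℂ) ≠ 0 := by exact_mod_cast (b_pos n).ne'

theorem g_zero (m : ℕ) : g m 0 = 1 := by
  unfold g
  simp

theorem deriv_zero : deriv fn 0 ≠ 0 := by
  have h1 : HasDerivAt (fun z : ℂ => 262144 * z) (262144 * 1) 0 :=
    (hasDerivAt_id (0:ℂ)).const_mul _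
  have h2 := h1.mul ((g_diff 0) 0).hasDerivAt
  have h3 : deriv fn 0 = 262144 * 1 * g 0 0 + 262144 * 0 * deriv (g 0) 0 := h2.deriv
  rw [h3, g_zero]
  norm_num

theorem Q_diff (n : ℕ) : Differentiable ℂ (Q n) := by
  unfold Q
  fun_prop

theorem deriv_b (n : ℕ) : deriv fn (b n) ≠ 0 := by
  have h1 : HasDerivAt (fun z : ℂ => 1 - z / (b n : ℂ)) (-(1 / (b n : ℂ))) (b n) :=
    ((hasDerivAt_id (b n : ℂ)).div_const _).const_sub 1
  have h2 := ((Q_diff n (b n)).hasDerivAt.mul h1).mul ((g_diff (n+1)) (b n)).hasDerivAt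
  have h3 : fn = fun z => Q n z * (1 - z / b n) * g (n + 1) z := funext (fn_eq n)
  have h4 : deriv fn (b n) = (deriv (Q n) (b n) * (1 - (b n : ℂ) / (b n : ℂ)) +
      Q n (b n) * (-(1 / (b n : ℂ)))) * g (n+1) (b n) +
      Q n (b n) * (1 - (b n : ℂ) / (b n : ℂ)) * deriv (g (n+1)) (b n) := by
    rw [h3]
    exact h2.deriv
  rw [h4, div_self (b_ne n), sub_self, mul_zero, mul_zero, zero_add, zero_mul, add_zero]
  have hb := b_pos n
  have hb1 := b_pos (n + 1)
  have hQ : Q n (b n) ≠ 0 := by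
    intro h
    have h5 := LO' n (t := 1) (by norm_num) (z := (b n : ℂ)) (by rw [norm_b]; linarith)
    rw [h, norm_zero, one_pow] at h5
    linarith
  have hg : g (n+1) (b n) ≠ 0 := by
    intro h
    have h5 := g_lo n (z := (b n : ℂ)) (by rw [norm_b]; linarith)
    rw [h, norm_zero] at h5
    linarith
  apply mul_ne_zero _ hg
  apply mul_ne_zero hQ
  rw [neg_ne_zero]
  exact one_div_ne_zero (b_ne n)

/-- the equation for critical points -/
theorem crit_sum {c : ℂ} (hc : deriv fn c = 0) (h0 : c ≠ 0) (hb : ∀ k, c ≠ b k) :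
    HasSum (fun k : ℕ => 1 / (c - b k)) (-(1 / c)) := by
  have hfac : ∀ k : ℕ, 1 + -(c / (b k : ℂ)) ≠ 0 := by
    intro k h
    apply hb k
    have hbk := b_ne k
    field_simp at h
    linear_combination -h
  have hsum := (tail_summable 0 c).1
  simp only [add_zero] at hsum
  have hne : ∏' k : ℕ, (1 + -(c / (b k : ℂ))) ≠ 0 := tprod_one_add_ne_zero_of_summable hfac hsum
  have hder : ∀ k : ℕ, logDeriv (fun z : ℂ => 1 + -(z / (b k : ℂ))) c = 1 / (c - b k) := by
    intro k
    have h1 : HasDerivAt (fun z : ℂ => 1 + -(z / (b k : ℂ))) (-(1 / (b k : ℂ))) c :=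
      (((hasDerivAt_id c).div_const _).neg).const_add 1
    have hbk := b_ne k
    have h2 : c - b k ≠ 0 := sub_ne_zero.2 (hb k)
    have h3 := hfac k
    rw [logDeriv_apply, h1.deriv]
    rw [div_eq_div_iff h3 h2]
    field_simp
    ring
  -- summability
  have hs2 : Summable (fun k : ℕ => 1 / (c - b k)) := by
    have h1 : Summable (fun k : ℕ => 2 * ‖-(c / (b k : ℂ))‖ / ‖c‖) :=
      (hsum.mul_left 2).div_const _
    apply Summable.of_norm_bounded_eventually_nat h1
    have h2 : ∀ᶠ k : ℕ in atTop, 2 * ‖c‖ ≤ b k := by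
      have h3 : Tendsto b atTop atTop :=
        tendsto_atTop_mono nat_le_b tendsto_natCast_atTop_atTop
      exact h3.eventually_ge_atTop _
    filter_upwards [h2] with k hk
    have hcn : 0 < ‖c‖ := norm_pos_iff.2 h0
    have hbk := b_pos k
    rw [norm_div, norm_one, norm_neg, norm_div, norm_b]
    have h4 := norm_sub_norm_le (b k : ℂ) c
    rw [norm_b, norm_sub_rev] at h4
    have h5 : b k / 2 ≤ ‖c - b k‖ := by linarith
    have h6 : 2 * (‖c‖ / b k) / ‖c‖ = 1 / (b k / 2) := by field_simp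
    rw [h6]
    exact one_div_le_one_div_of_le (by linarith) h5
  have hlog := logDeriv_tprod_eq_tsum (f := fun (k : ℕ) (z : ℂ) => 1 + -(z / (b k : ℂ)))
    (isOpen_ball (x := (0:ℂ)) (ε := ‖c‖ + 1)) (x := c) (by rw [mem_ball_zero_iff]; linarith)
    hfac (fun k => by fun_prop) (by simp only [hder]; exact hs2)
    (by
      have := g_loc 0 (‖c‖ + 1)
      simp only [add_zero] at this
      exact ⟨_, this⟩) hne
  simp only [hder] at hlog
  have h0g : g 0 = fun z => ∏' k : ℕ, (1 + -(z / (b k : ℂ))) := by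
    funext z
    simp [g]
  rw [← h0g] at hlog
  -- derivative of `fn`
  have h1 : HasDerivAt (fun z : ℂ => 262144 * z) (262144 * 1) c :=
    (hasDerivAt_id c).const_mul _
  have h2 := h1.mul ((g_diff 0) c).hasDerivAt
  have h3 : deriv fn c = 262144 * 1 * g 0 c + 262144 * c * deriv (g 0) c := h2.deriv
  rw [hc] at h3
  have hg0 : g 0 c ≠ 0 := by rw [h0g]; exact hne
  rw [logDeriv_apply] at hlog
  have h4 : deriv (g 0) c / g 0 c = -(1 / c) := by
    rw [div_eq_iff hg0]
    field_simp
    linear_combination -h3 / 262144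
  rw [h4] at hlog
  rw [hlog]
  exact hs2.hasSum

/-- critical points are real and positive -/
theorem crit_real {c : ℂ} (h0 : c ≠ 0) (hs : HasSum (fun k : ℕ => 1 / (c - b k)) (-(1 / c))) :
    c.im = 0 ∧ 0 < c.re := by
  have him : c.im = 0 := by
    have h1 := (Complex.hasSum_im hs).mul_left (-c.im)
    have h2 : 0 ≤ -c.im * (-(1 / c)).im := by
      refine HasSum.nonneg ?_ h1
      intro k
      rw [one_div, Complex.inv_im, Complex.sub_im, Complex.ofReal_im, sub_zero]
      have : 0 ≤ Complex.normSq (c - b k) := Complex.normSq_nonneg _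
      have e : -c.im * (-c.im / Complex.normSq (c - b k)) =
        c.im ^ 2 / Complex.normSq (c - b k) := by ring
      rw [e]
      positivity
    rw [Complex.neg_im, one_div, Complex.inv_im] at h2
    have h3 : 0 < Complex.normSq c := Complex.normSq_pos.2 h0
    have e : -c.im * -(-c.im / Complex.normSq c) = -(c.im ^ 2 / Complex.normSq c) := by ring
    rw [e] at h2
    have h4 : c.im ^ 2 / Complex.normSq c ≤ 0 := by linarith
    have h5 : c.im ^ 2 ≤ 0 := by
      by_contra hcon
      push Not at hcon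
      have : 0 < c.im ^ 2 / Complex.normSq c := div_pos hcon h3
      linarith
    exact pow_eq_zero_iff (two_ne_zero) |>.1 (le_antisymm h5 (sq_nonneg _))
  refine ⟨him, ?_⟩
  have hc : c = (c.re : ℂ) := by
    apply Complex.ext <;> simp [him]
  have hx0 : c.re ≠ 0 := by
    intro h
    apply h0
    rw [hc, h]
    simp
  by_contra hcon
  push Not at hcon
  have hneg : c.re < 0 := lt_of_le_of_ne hcon hx0
  have h1 := (Complex.hasSum_re hs).mul_left (-1)
  have h2 : 0 ≤ -1 * (-(1 / c)).re := by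
    refine HasSum.nonneg ?_ h1
    intro k
    have hb := b_pos k
    rw [hc, ← Complex.ofReal_sub, ← Complex.ofReal_one, ← Complex.ofReal_div, Complex.ofReal_re]
    have : 1 / (c.re - b k) < 0 := one_div_neg.2 (by linarith)
    linarith
  rw [hc, ← Complex.ofReal_one, ← Complex.ofReal_div, ← Complex.ofReal_neg,
    Complex.ofReal_re] at h2
  have : 1 / c.re < 0 := one_div_neg.2 hneg
  linarith

/-- real form -/
theorem crit_real' {c : ℂ} (h0 : c ≠ 0)
    (hs : HasSum (fun k : ℕ => 1 / (c - b k)) (-(1 / c))) :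
    ∃ x : ℝ, 0 < x ∧ c = (x : ℂ) ∧ HasSum (fun k : ℕ => x / (b k - x)) 1 := by
  obtain ⟨h1, h2⟩ := crit_real h0 hs
  obtain ⟨x, hxc⟩ : ∃ x : ℝ, c = (x : ℂ) := ⟨c.re, by apply Complex.ext <;> simp [h1]⟩
  subst hxc
  rw [Complex.ofReal_re] at h2
  refine ⟨x, h2, rfl, ?_⟩
  have h3 := (Complex.hasSum_re hs).mul_left (-x)
  have e1 : -x * (-(1 / (x : ℂ))).re = 1 := by
    rw [← Complex.ofReal_one, ← Complex.ofReal_div, ← Complex.ofReal_neg,
      Complex.ofReal_re]
    have : x ≠ 0 := h2.ne'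
    field_simp
  rw [e1] at h3
  refine h3.congr_fun ?_
  intro k
  rw [← Complex.ofReal_sub, ← Complex.ofReal_one, ← Complex.ofReal_div, Complex.ofReal_re]
  by_cases hk : x = b k
  · rw [hk]; simp
  · have h4 : b k - x ≠ 0 := sub_ne_zero.2 (Ne.symm hk)
    have h5 : x - b k ≠ 0 := sub_ne_zero.2 hk
    rw [div_eq_iff h4]
    field_simp
    ring

theorem tail_le (m : ℕ) {x : ℝ} (hx : 0 < x) (hxm : 64 * x ≤ b m) (j : ℕ) :
    x / (b (j + m) - x) ≤ (1/4) * (1/2) ^ j := by
  have h1 := b_add_ge m j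
  rw [add_comm m j] at h1
  have h2 : (2:ℝ) ^ j ≤ 1048576 ^ j := pow_le_pow_left₀ (by norm_num) (by norm_num) j
  have h3 : (1:ℝ) ≤ 2 ^ j := one_le_pow₀ (by norm_num)
  have h4 : (2:ℝ) ^ j * (64 * x) ≤ b (j + m) := by
    refine le_trans ?_ h1
    apply mul_le_mul h2 hxm (by positivity) (by positivity)
  have h5 : (2:ℝ) ^ j * (4 * x) ≤ b (j + m) - x := by nlinarith
  have h6 : 0 < (2:ℝ) ^ j * (4 * x) := by positivity
  calc x / (b (j + m) - x) ≤ x / ((2:ℝ) ^ j * (4 * x)) :=
        div_le_div_of_nonneg_left hx.le h6 h5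
    _ = (1/4) * (1/2) ^ j := by
        rw [one_div_pow]
        field_simp

theorem tail_sum (m : ℕ) {x : ℝ} (hx : 0 < x) (hxm : 64 * x ≤ b m) {s : ℝ}
    (hs : HasSum (fun j : ℕ => x / (b (j + m) - x)) s) : s ≤ 1/2 := by
  have h1 : HasSum (fun j : ℕ => (1/4 : ℝ) * (1/2) ^ j) ((1/4) * 2) :=
    hasSum_geometric_two.mul_left _
  have := hasSum_le (fun j => tail_le m hx hxm j) hs h1
  linarith

/-- location of the real critical points -/
theorem crit_loc {x : ℝ} (hx : 0 < x) (hb : ∀ k, x ≠ b k)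
    (hs : HasSum (fun k : ℕ => x / (b k - x)) 1) : ∃ n, sg n < x ∧ x < rr n := by
  have h0 : sg 0 < x := by
    by_contra hcon
    push Not at hcon
    have : sg 0 = 1/64 := rfl
    have h1 := tail_sum 0 hx (by rw [b_zero]; linarith) (s := 1) (by simpa using hs)
    linarith
  obtain ⟨N, hN⟩ := (sg_tend.eventually_ge_atTop x).exists
  have hex : ∃ n, sg n < x ∧ x ≤ sg (n + 1) := by
    by_contra hcon
    push Not at hcon
    have : ∀ n, sg n < x := by
      intro n
      induction n with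
      | zero => exact h0
      | succ n ih => exact hcon n ih
    linarith [this N]
  obtain ⟨n, hn1, hn2⟩ := hex
  refine ⟨n, hn1, ?_⟩
  by_contra hcon
  push Not at hcon
  have hbn := b_pos n
  have hr := rr_ge n
  have hn2' : x ≤ 64 * b n := hn2
  have hsplit := (hasSum_nat_add_iff' (f := fun k : ℕ => x / (b k - x)) (n + 1)).2 hs
  have hb1 := b_succ_ge n
  have hlow : ∀ k ∈ Finset.range n, (-2 : ℝ) ≤ x / (b k - x) ∧ x / (b k - x) ≤ 0 := by
    intro k hk
    have hk' : k + 1 ≤ n := Finset.mem_range.1 hk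
    have h1 := b_strictMono.monotone hk'
    have h2 := b_succ_ge k
    have h3 := b_pos k
    have h4 : b k - x < 0 := by linarith
    constructor
    · rw [le_div_iff_of_neg h4]
      linarith
    · exact div_nonpos_of_nonneg_of_nonpos hx.le h4.le
  rcases lt_or_gt_of_ne (hb n) with hlt | hgt
  · -- below the zero
    have h1 : 0 ≤ 1 - ∑ k ∈ Finset.range (n + 1), x / (b k - x) := by
      refine HasSum.nonneg ?_ hsplit
      intro j
      have h2 := b_strictMono.monotone (show n + 1 ≤ j + (n + 1) by omega)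
      have h3 : 0 < b (j + (n + 1)) - x := by linarith
      exact (div_pos hx h3).le
    rw [Finset.sum_range_succ] at h1
    have h2 : -2 * (n : ℝ) ≤ ∑ k ∈ Finset.range n, x / (b k - x) := by
      have := Finset.card_nsmul_le_sum (Finset.range n) (fun k => x / (b k - x)) (-2)
        (fun k hk => (hlow k hk).1)
      rw [Finset.card_range, nsmul_eq_mul] at this
      linarith
    have h3 : 2 * (n : ℝ) + 3 ≤ x / (b n - x) := by
      have h4 : 0 < b n - x := by linarith
      rw [le_div_iff₀ h4]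
      unfold rr at hcon
      have hxm := xx_mul n
      have hxp := xx_pos n
      have hN : (0:ℝ) ≤ n := Nat.cast_nonneg n
      -- `b n - x ≤ xx n / 2 * b n`
      have h5 : b n - x ≤ xx n / 2 * b n := by linarith
      have h6 : (2 * (n:ℝ) + 4) * (b n - x) ≤ (2 * (n:ℝ) + 4) * (xx n / 2 * b n) :=
        mul_le_mul_of_nonneg_left h5 (by positivity)
      have h7 : (2 * (n:ℝ) + 4) * (xx n / 2 * b n) = b n := by
        have : (2 * (n:ℝ) + 4) * (xx n / 2 * b n) = (((n:ℝ) + 2) * xx n) * b n := by ring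
        rw [this, hxm, one_mul]
      linarith
    linarith
  · -- above the zero
    have h1 : 1 - ∑ k ∈ Finset.range (n + 1), x / (b k - x) ≤ 1/2 :=
      tail_sum (n + 1) hx (by linarith) hsplit
    rw [Finset.sum_range_succ] at h1
    have h2 : ∑ k ∈ Finset.range n, x / (b k - x) ≤ 0 :=
      Finset.sum_nonpos fun k hk => (hlow k hk).2
    have h3 : x / (b n - x) ≤ 0 := div_nonpos_of_nonneg_of_nonpos hx.le (by linarith)
    linarith

/-- every critical point lies in one of the annuli -/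
theorem crit {c : ℂ} (hc : deriv fn c = 0) : ∃ n, c ∈ Sys.B rr sg n := by
  have h0 : c ≠ 0 := by
    rintro rfl
    exact deriv_zero hc
  have hb : ∀ k, c ≠ b k := by
    rintro k rfl
    exact deriv_b k hc
  obtain ⟨x, hx, rfl, hs⟩ := crit_real' h0 (crit_sum hc h0 hb)
  obtain ⟨n, h1, h2⟩ := crit_loc hx (fun k hk => hb k (by rw [hk])) hs
  refine ⟨n, ?_⟩
  show sg n < ‖(x : ℂ)‖ ∧ ‖(x : ℂ)‖ < rr n
  rw [Complex.norm_real, Real.norm_eq_abs, abs_of_pos hx]
  exact ⟨h1, h2⟩

end

end Pool.Agent.X282.BW
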