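import Pool.Agent.W723.MC.Topo
import Pool.Agent.TH224.SC.Defs

/-!
Dynamics of an entire function with one simple zero between consecutive invariant annuli.
-/

set_option autoImplicit false

open Filter Topology Metric Set

namespace Pool.Agent.X282.BW

open Pool.Agent.H384R2.Fatou Pool.Agent.W723.MC Pool.Agent.TH224.SC

/-- The function with its radii. -/
structure Sys (f : ℂ → ℂ) (r σ τ b η η' Y : ℕ → ℝ) : Prop where
  hf : Differentiable ℂ f
  ho : IsOpenMap f
  hf0 : f 0 = 0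
  hσ : ∀ n, 0 < σ n
  hστ : ∀ n, σ n < τ n
  hτr : ∀ n, τ n < r n
  hrσ : ∀ n, r n < σ (n + 1)
  htend : Tendsto σ atTop atTop
  up : ∀ n z, ‖z‖ ≤ r n → ‖f z‖ < r (n + 1)
  low : ∀ n z, σ n ≤ ‖z‖ → ‖z‖ ≤ r n → σ (n + 1) < ‖f z‖
  lowτ : ∀ n z, τ n ≤ ‖z‖ → ‖z‖ ≤ r n → τ (n + 1) ≤ ‖f z‖
  grow : ∀ K : ℝ, ∀ᶠ n in atTop, K * Real.log (r n) < Real.log (τ (n + 1))
  hη : ∀ n, 0 < η n
  hηη : ∀ n, η n < η' n
  hbr : ∀ n, r n < b n
  hb1 : ∀ n, σ n < b n - η' n
  hb2 : ∀ n, b n - η n < r n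
  hb3 : ∀ n, b n + η' n < σ (n + 1)
  hfb : ∀ n, f (b n) = 0
  cU : ∀ n (z : ℂ), ‖z - b n‖ ≤ η' n → ‖f z‖ < r (n + 1)
  cL : ∀ n (z : ℂ), η n ≤ ‖z - b n‖ → ‖z - b n‖ ≤ η' n → σ (n + 1) < ‖f z‖
  hY1 : ∀ n, σ (n + 1) < Y n ∧ Y n < r (n + 1)
  hY2 : ∀ n (z : ℂ), ‖z‖ ≤ σ n → ‖f z‖ < Y n
  hY3 : ∀ n (z : ℂ), r n ≤ ‖z‖ → ‖z‖ ≤ σ (n + 1) → η n ≤ ‖z - b n‖ → Y n < ‖f z‖

theorem isPreconnected_ann {a b : ℝ} (ha : 0 < a) : IsPreconnected {z : ℂ | a < ‖z‖ ∧ ‖z‖ < b} := by
  have h1 : IsPreconnected ((Ioo a b) ×ˢ (sphere (0 : ℂ) 1)) :=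
    isPreconnected_Ioo.prod (isPreconnected_sphere
      (by rw [Complex.rank_real_complex]; norm_num) 0 1)
  have h2 := h1.image (fun q : ℝ × ℂ => (q.1 : ℂ) * q.2) (by fun_prop)
  convert h2 using 1
  ext z
  simp only [Set.mem_ofPred_eq, Set.mem_image, Set.mem_prod, mem_Ioo, mem_sphere_zero_iff_norm,
    Prod.exists]
  constructor
  · intro hz
    have hz0 : ‖z‖ ≠ 0 := by linarith
    refine ⟨‖z‖, z / ‖z‖, ⟨hz, ?_⟩, ?_⟩
    · rw [norm_div, Complex.norm_real, norm_norm, div_self hz0]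
    · have : ((‖z‖ : ℝ) : ℂ) ≠ 0 := by exact_mod_cast hz0
      field_simp
  · rintro ⟨t, v, ⟨ht, hv⟩, rfl⟩
    rw [norm_mul, hv, mul_one, Complex.norm_real, Real.norm_eq_abs, abs_of_pos (by linarith)]
    exact ht

theorem isPreconnected_ann' {a b : ℝ} (c : ℂ) (ha : 0 < a) :
    IsPreconnected {z : ℂ | a < ‖z - c‖ ∧ ‖z - c‖ < b} := by
  have h := (isPreconnected_ann (b := b) ha).image (fun z => z + c) (by fun_prop)
  convert h using 1
  ext z
  simp only [Set.mem_ofPred_eq, Set.mem_image]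
  constructor
  · intro hz
    exact ⟨z - c, hz, by ring⟩
  · rintro ⟨w, hw, rfl⟩
    simpa using hw

/-- frontier points of a component of an open set are not in the set -/
theorem frontier_comp {O : Set ℂ} (hO : IsOpen O) {x z : ℂ}
    (hz : z ∈ frontier (connectedComponentIn O x)) : z ∉ O := by
  intro hzO
  have hop : IsOpen (connectedComponentIn O x) := hO.connectedComponentIn
  rw [hop.frontier_eq] at hz
  obtain ⟨w, hw1, hw2⟩ := mem_closure_iff_nhds.1 hz.1 _
    (hO.connectedComponentIn.mem_nhds (mem_connectedComponentIn hzO))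
  apply hz.2
  rw [connectedComponentIn_eq hw2, ← connectedComponentIn_eq hw1]
  exact mem_connectedComponentIn hzO

/-- a preconnected set with a point inside and a point outside meets the circle -/
theorem cross {A : Set ℂ} (hA : IsPreconnected A) {x y : ℂ} (hx : x ∈ A) (hy : y ∈ A) {t : ℝ}
    (h1 : ‖x‖ ≤ t) (h2 : t ≤ ‖y‖) : ∃ z ∈ A, ‖z‖ = t := by
  have := hA.intermediate_value hx hy continuous_norm.continuousOn
  obtain ⟨z, hz, hzt⟩ := this ⟨h1, h2⟩
  exact ⟨z, hz, hzt⟩

/-- a bounded Fatou component is mapped onto a Fatou component -/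
theorem comp_surj {f : ℂ → ℂ} (hf : Continuous f) (ho : IsOpenMap f) {w : ℂ}
    (hw : w ∈ FatouSet f) (hb : Bornology.IsBounded (FatouComponent f w)) :
    f '' FatouComponent f w = FatouComponent f (f w) := by
  have h0 : f '' FatouComponent f w ⊆ FatouComponent f (f w) := component_map hf ho hw 1
  apply h0.antisymm
  have hcpt : IsCompact (closure (FatouComponent f w)) := hb.isCompact_closure
  have hpre : IsPreconnected (FatouComponent f (f w)) := isPreconnected_connectedComponentIn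
  apply hpre.subset_of_closure_inter_subset (ho _ (component_isOpen f w))
  · have hm : f w ∈ f '' FatouComponent f w := ⟨w, mem_connectedComponentIn hw, rfl⟩
    exact ⟨f w, h0 hm, hm⟩
  · rintro v ⟨hv1, hv2⟩
    have h1 : closure (f '' FatouComponent f w) ⊆ f '' closure (FatouComponent f w) :=
      closure_minimal (image_mono subset_closure) (hcpt.image hf).isClosed
    obtain ⟨z, hz, rfl⟩ := h1 hv1
    refine ⟨z, ?_, rfl⟩
    have hzF : z ∈ FatouSet f := fatou_backward hf (connectedComponentIn_subset _ _ hv2)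
    obtain ⟨v, hv1, hv2⟩ := mem_closure_iff_nhds.1 hz _
      ((component_isOpen f z).mem_nhds (mem_connectedComponentIn hzF))
    have e1 : FatouComponent f w = FatouComponent f v := connectedComponentIn_eq hv2
    have e2 : FatouComponent f z = FatouComponent f v := connectedComponentIn_eq hv1
    rw [e1, ← e2]
    exact mem_connectedComponentIn hzF

namespace Sys

variable {f : ℂ → ℂ} {r σ τ b η η' Y : ℕ → ℝ}

theorem σ_lt_r (h : Sys f r σ τ b η η' Y) (n : ℕ) : σ n < r n := (h.hστ n).trans (h.hτr n)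

theorem τ_mono (h : Sys f r σ τ b η η' Y) : Monotone τ :=
  monotone_nat_of_le_succ fun n => ((h.hτr n).trans ((h.hrσ n).trans (h.hστ (n + 1)))).le

/-- the invariant annuli -/
def B (r σ : ℕ → ℝ) (n : ℕ) : Set ℂ := {z | σ n < ‖z‖ ∧ ‖z‖ < r n}

theorem B_open (r σ : ℕ → ℝ) (n : ℕ) : IsOpen (B r σ n) :=
  (isOpen_lt continuous_const continuous_norm).inter (isOpen_lt continuous_norm continuous_const)

theorem B_pre (h : Sys f r σ τ b η η' Y) (n : ℕ) : IsPreconnected (B r σ n) :=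
  isPreconnected_ann (h.hσ n)

theorem B_map (h : Sys f r σ τ b η η' Y) {n : ℕ} {z : ℂ} (hz : z ∈ B r σ n) :
    f z ∈ B r σ (n + 1) :=
  ⟨h.low n z hz.1.le hz.2.le, h.up n z hz.2.le⟩

theorem B_iter (h : Sys f r σ τ b η η' Y) {n : ℕ} {z : ℂ} (hz : z ∈ B r σ n) (k : ℕ) :
    f^[k] z ∈ B r σ (n + k) := by
  induction k with
  | zero => exact hz
  | succ k ih =>
    rw [Function.iterate_succ_apply']
    exact h.B_map ih

theorem B_esc (h : Sys f r σ τ b η η' Y) (n : ℕ) : EscOn f (B r σ n) := by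
  intro R
  have h1 : Tendsto (fun k => σ (n + k)) atTop atTop :=
    h.htend.comp (tendsto_add_atTop_nat n |>.congr fun k => add_comm k n)
  filter_upwards [h1.eventually_ge_atTop R] with k hk z hz
  exact hk.trans (h.B_iter hz k).1.le

theorem B_fatou (h : Sys f r σ τ b η η' Y) (n : ℕ) : B r σ n ⊆ FatouSet f :=
  subset_fatou_of_escOn (h.B_esc n) (B_open r σ n)

/-- the base point -/
noncomputable def pt (τ : ℕ → ℝ) : ℂ := ((τ 0 : ℝ) : ℂ)

theorem pt_orbit (h : Sys f r σ τ b η η' Y) (n : ℕ) :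
    τ n ≤ ‖f^[n] (pt τ)‖ ∧ ‖f^[n] (pt τ)‖ < r n := by
  induction n with
  | zero =>
    have h0 : 0 < τ 0 := (h.hσ 0).trans (h.hστ 0)
    have h1 : ‖f^[0] (pt τ)‖ = τ 0 := by
      rw [Function.iterate_zero, id, pt, Complex.norm_real, Real.norm_eq_abs, abs_of_pos h0]
    rw [h1]
    exact ⟨le_rfl, h.hτr 0⟩
  | succ n ih =>
    rw [Function.iterate_succ_apply']
    exact ⟨h.lowτ n _ ih.1 ih.2.le, h.up n _ ih.2.le⟩

theorem pt_B (h : Sys f r σ τ b η η' Y) (n : ℕ) : f^[n] (pt τ) ∈ B r σ n :=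
  ⟨(h.hστ n).trans_le (h.pt_orbit n).1, (h.pt_orbit n).2⟩

/-- the Fatou components -/
def U (f : ℂ → ℂ) (τ : ℕ → ℝ) (n : ℕ) : Set ℂ := FatouComponent f (f^[n] (pt τ))

theorem pt_F (h : Sys f r σ τ b η η' Y) (n : ℕ) : f^[n] (pt τ) ∈ FatouSet f :=
  h.B_fatou n (h.pt_B n)

theorem pt_U (h : Sys f r σ τ b η η' Y) (n : ℕ) : f^[n] (pt τ) ∈ U f τ n :=
  mem_connectedComponentIn (h.pt_F n)

theorem U_open (f : ℂ → ℂ) (τ : ℕ → ℝ) (n : ℕ) : IsOpen (U f τ n) := component_isOpen _ _

theorem U_pre (f : ℂ → ℂ) (τ : ℕ → ℝ) (n : ℕ) : IsPreconnected (U f τ n) :=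
  isPreconnected_connectedComponentIn

theorem U_fatou (f : ℂ → ℂ) (τ : ℕ → ℝ) (n : ℕ) : U f τ n ⊆ FatouSet f :=
  connectedComponentIn_subset _ _

theorem B_U (h : Sys f r σ τ b η η' Y) (n : ℕ) : B r σ n ⊆ U f τ n :=
  (h.B_pre n).subset_connectedComponentIn (h.pt_B n) (h.B_fatou n)

theorem U_map (h : Sys f r σ τ b η η' Y) (n k : ℕ) : f^[k] '' U f τ n ⊆ U f τ (n + k) := by
  have h1 := component_map h.hf.continuous h.ho (h.pt_F n) k
  rw [← Function.iterate_add_apply, add_comm k n] at h1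
  exact h1

theorem esc (h : Sys f r σ τ b η η' Y) {n : ℕ} {q : ℂ} (hq : q ∈ U f τ n) :
    Tendsto (fun k => ‖f^[k] q‖) atTop atTop := by
  obtain ⟨ρ, hρ, -, hE⟩ := esc_near (h.pt_F n) ((B_open r σ n).mem_nhds (h.pt_B n))
    (h.B_esc n) hq
  rw [Filter.tendsto_atTop]
  intro R
  filter_upwards [hE R] with k hk
  exact hk q (mem_ball_self hρ)

theorem U_ne_lt (h : Sys f r σ τ b η η' Y) {j k : ℕ} (hjk : j < k) : U f τ j ≠ U f τ k := by
  intro heq
  have h1 : f^[k] (pt τ) ∈ U f τ j := by rw [heq]; exact h.pt_U k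
  obtain ⟨C, hC, hev⟩ := growth_compare h.hf (h.pt_F j) ((B_open r σ j).mem_nhds (h.pt_B j))
    (h.B_esc j) h1
  have h2 : ∀ᶠ i : ℕ in atTop, C * Real.log (r (j + i)) < Real.log (τ (j + i + 1)) :=
    (tendsto_add_atTop_nat j |>.congr fun k => add_comm k j).eventually (h.grow C)
  obtain ⟨i, ⟨h3, -⟩, h4⟩ := (hev.and h2).exists
  rw [← Function.iterate_add_apply, ← Function.iterate_add_apply, add_comm i k, add_comm i j] at h3
  have h5 := (h.pt_orbit (k + i)).1
  have h6 := (h.pt_orbit (j + i)).2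
  have h7 : τ (j + i + 1) ≤ τ (k + i) := h.τ_mono (by omega)
  have hpos : 0 < τ (j + i + 1) := (h.hσ _).trans (h.hστ _)
  have h8 : Real.log (τ (j + i + 1)) ≤ Real.log ‖f^[k + i] (pt τ)‖ :=
    Real.log_le_log hpos (h7.trans h5)
  have hpos2 : 0 < ‖f^[j + i] (pt τ)‖ :=
    ((h.hσ _).trans (h.hστ _)).trans_le (h.pt_orbit (j + i)).1
  have h9 : Real.log ‖f^[j + i] (pt τ)‖ ≤ Real.log (r (j + i)) := Real.log_le_log hpos2 h6.le
  have h10 := mul_le_mul_of_nonneg_left h9 hC.le
  linarith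

theorem U_ne (h : Sys f r σ τ b η η' Y) {j k : ℕ} (hjk : j ≠ k) : U f τ j ≠ U f τ k := by
  rcases lt_or_gt_of_ne hjk with h1 | h1
  · exact h.U_ne_lt h1
  · exact (h.U_ne_lt h1).symm

theorem wandering (h : Sys f r σ τ b η η' Y) : IsWanderingDomain f (U f τ 0) := by
  refine ⟨U f τ, rfl, fun k => ⟨f^[k] (pt τ), h.pt_F k, rfl⟩, fun k => ?_, fun j k hjk => h.U_ne hjk⟩
  have := h.U_map 0 k
  rwa [zero_add] at this

theorem U_bdd_le (h : Sys f r σ τ b η η' Y) (n : ℕ) : ∀ z ∈ U f τ n, ‖z‖ ≤ σ (n + 1) := by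
  intro z hz
  by_contra hcon
  push Not at hcon
  have h1 := (h.pt_B n).2
  have h2 := h.hrσ n
  have h3 := h.σ_lt_r (n + 1)
  obtain ⟨t, ht1, ht2⟩ := exists_between (lt_min hcon h3)
  obtain ⟨w, hw, hwt⟩ := cross (U_pre f τ n) (h.pt_U n) hz (t := t) (by linarith)
    (ht2.le.trans (min_le_left _ _))
  have h3 : w ∈ B r σ (n + 1) := by
    refine ⟨by linarith, ?_⟩
    rw [hwt]
    exact ht2.trans_le (min_le_right _ _)
  have h4 := h.B_U (n + 1) h3
  apply h.U_ne_lt (Nat.lt_succ_self n)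
  exact (connectedComponentIn_eq hw).trans (connectedComponentIn_eq h4).symm

/-- a Fatou component mapped into `U (n+1)` with a point in the disc lies in the disc -/
theorem comp_bdd (h : Sys f r σ τ b η η' Y) {n : ℕ} {w : ℂ} (hw : ‖w‖ < σ (n + 1))
    (hwF : w ∈ FatouSet f) (hfw : f w ∈ U f τ (n + 1)) :
    FatouComponent f w ⊆ ball 0 (σ (n + 1)) := by
  intro z hz
  rw [mem_ball_zero_iff]
  by_contra hcon
  push Not at hcon
  obtain ⟨v, hv, hvt⟩ := cross (isPreconnected_connectedComponentIn)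
    (mem_connectedComponentIn hwF) hz hw.le hcon
  have h1 : f v ∈ FatouComponent f (f w) := component_map h.hf.continuous h.ho hwF 1 ⟨v, hv, rfl⟩
  have h2 : U f τ (n + 1) = FatouComponent f (f w) := connectedComponentIn_eq hfw
  rw [← h2] at h1
  have h3 := h.U_bdd_le _ _ h1
  have h4 := h.low (n + 1) v hvt.ge (by rw [hvt]; exact (h.σ_lt_r _).le)
  linarith

theorem U_bdd (h : Sys f r σ τ b η η' Y) (n : ℕ) : U f τ n ⊆ ball 0 (σ (n + 1)) := by
  have h1 : f (f^[n] (pt τ)) ∈ U f τ (n + 1) := by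
    rw [← Function.iterate_succ_apply' f]
    exact h.pt_U (n + 1)
  exact h.comp_bdd (((h.pt_B n).2).trans (h.hrσ n)) (h.pt_F n) h1

theorem U_surj (h : Sys f r σ τ b η η' Y) (n : ℕ) : f '' U f τ n = U f τ (n + 1) := by
  have := comp_surj h.hf.continuous h.ho (h.pt_F n) (isBounded_ball.subset (h.U_bdd n))
  rw [← Function.iterate_succ_apply' f] at this
  exact this

theorem U_iter (h : Sys f r σ τ b η η' Y) (n : ℕ) : f^[n] '' U f τ 0 = U f τ n := by
  induction n with
  | zero => simp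
  | succ n ih =>
    rw [Function.iterate_succ', image_comp, ih, h.U_surj]

theorem iter_zero (h : Sys f r σ τ b η η' Y) (k : ℕ) : f^[k] 0 = 0 := by
  induction k with
  | zero => rfl
  | succ k ih => rw [Function.iterate_succ_apply', ih, h.hf0]

theorem not_U_zero (h : Sys f r σ τ b η η' Y) (n : ℕ) : (0 : ℂ) ∉ U f τ n := by
  intro h0
  have h1 := h.esc h0
  simp only [h.iter_zero, norm_zero] at h1
  exact not_tendsto_const_atTop 0 atTop h1

theorem not_U_b (h : Sys f r σ τ b η η' Y) (n : ℕ) : ((b n : ℝ) : ℂ) ∉ U f τ n := by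
  intro h0
  have h1 := h.U_map n 1 ⟨_, h0, rfl⟩
  rw [Function.iterate_one, h.hfb] at h1
  exact h.not_U_zero _ h1

/-- the annulus around the zero -/
def Rg (b η η' : ℕ → ℝ) (n : ℕ) : Set ℂ := {z | η n < ‖z - b n‖ ∧ ‖z - b n‖ < η' n}

/-- a closed ring around the zero lies in `U n` -/
theorem ring_U (h : Sys f r σ τ b η η' Y) {n : ℕ} {z : ℂ} (h1 : η n ≤ ‖z - b n‖)
    (h2 : ‖z - b n‖ < η' n) : z ∈ U f τ n := by
  set Q : Set ℂ := {w | ‖w - b n‖ < η' n ∧ σ (n + 1) < ‖f w‖} with hQ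
  have hQo : IsOpen Q := by
    have c1 : Continuous fun w : ℂ => ‖w - b n‖ := by fun_prop
    exact (isOpen_lt c1 continuous_const).inter
      (isOpen_lt continuous_const h.hf.continuous.norm)
  have hQF : Q ⊆ FatouSet f := by
    intro w hw
    apply fatou_backward h.hf.continuous
    exact h.B_fatou (n + 1) ⟨hw.2, h.cU n w hw.1.le⟩
  -- a slightly larger ring
  have hring : ∀ w : ℂ, η n ≤ ‖w - b n‖ → ‖w - b n‖ < η' n → w ∈ Q :=
    fun w hw1 hw2 => ⟨hw2, h.cL n w hw1 hw2.le⟩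
  have hRp : IsPreconnected (Rg b η η' n) := isPreconnected_ann' _ (h.hη n)
  have hRQ : Rg b η η' n ⊆ FatouSet f := fun w hw => hQF (hring w hw.1.le hw.2)
  -- common point with `B n`
  have hcommon : (Rg b η η' n ∩ B r σ n).Nonempty := by
    have hb1 := h.hb1 n
    have hb2 := h.hb2 n
    have hηη := h.hηη n
    have hη := h.hη n
    have hs := h.hσ n
    obtain ⟨t, ht1, ht2⟩ := exists_between
      (lt_min hηη (show η n < b n - σ n by linarith))
    have ht3 : t < η' n := ht2.trans_le (min_le_left _ _)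
    refine ⟨((b n - t : ℝ) : ℂ), ⟨?_, ?_⟩, ?_, ?_⟩
    · have : ((b n - t : ℝ) : ℂ) - b n = ((-t : ℝ) : ℂ) := by push_cast; ring
      rw [this, Complex.norm_real, Real.norm_eq_abs, abs_neg, abs_of_pos (by linarith)]
      exact ht1
    · have : ((b n - t : ℝ) : ℂ) - b n = ((-t : ℝ) : ℂ) := by push_cast; ring
      rw [this, Complex.norm_real, Real.norm_eq_abs, abs_neg, abs_of_pos (by linarith)]
      exact ht3
    · rw [Complex.norm_real, Real.norm_eq_abs, abs_of_pos (by linarith)]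
      linarith
    · rw [Complex.norm_real, Real.norm_eq_abs, abs_of_pos (by linarith)]
      linarith
  obtain ⟨p, hp1, hp2⟩ := hcommon
  have hU1 : Rg b η η' n ⊆ U f τ n := by
    have h3 : IsPreconnected (Rg b η η' n ∪ B r σ n) :=
      IsPreconnected.union p hp1 hp2 hRp (h.B_pre n)
    exact fun w hw => h3.subset_connectedComponentIn (Or.inr (h.pt_B n))
      (union_subset hRQ (h.B_fatou n)) (Or.inl hw)
  rcases h1.lt_or_eq with h1 | h1
  · exact hU1 ⟨h1, h2⟩
  · -- a point of the inner circle is a limit of points of the ring in `Q`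
    have hzQ : z ∈ Q := hring z h1.le h2
    have hzF : z ∈ FatouSet f := hQF hzQ
    have hopen := (component_isOpen f z).mem_nhds (mem_connectedComponentIn hzF)
    obtain ⟨ε, hε, hball⟩ := Metric.mem_nhds_iff.1 hopen
    have hη := h.hη n
    set d : ℂ := z - b n with hd
    have hdn : ‖d‖ = η n := h1.symm
    obtain ⟨t, ht1, ht2⟩ := exists_between
      (lt_min (lt_min (show (0:ℝ) < ε / (2 * η n) by positivity)
        (show (0:ℝ) < (η' n - η n) / η n from div_pos (by linarith [h.hηη n]) hη)) one_pos)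
    have ht3 : t < ε / (2 * η n) := ht2.trans_le ((min_le_left _ _).trans (min_le_left _ _))
    have ht4 : t < (η' n - η n) / η n := ht2.trans_le ((min_le_left _ _).trans (min_le_right _ _))
    rw [lt_div_iff₀ (by positivity)] at ht3
    rw [lt_div_iff₀ hη] at ht4
    set v : ℂ := b n + (1 + (t : ℂ)) * d with hv
    have hvn : ‖v - b n‖ = (1 + t) * η n := by
      have : v - b n = ((1 + t : ℝ) : ℂ) * d := by rw [hv]; push_cast; ring
      rw [this, norm_mul, Complex.norm_real, hdn, Real.norm_eq_abs, abs_of_pos (by linarith)]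
    have hvR : v ∈ Rg b η η' n := by
      constructor
      · rw [hvn]; nlinarith
      · rw [hvn]; nlinarith
    have hvz : v ∈ FatouComponent f z := by
      apply hball
      rw [mem_ball, dist_eq_norm]
      have : v - z = (t : ℂ) * d := by rw [hv, hd]; ring
      rw [this, norm_mul, Complex.norm_real, hdn, Real.norm_eq_abs, abs_of_pos ht1]
      nlinarith
    have e1 : U f τ n = FatouComponent f v := connectedComponentIn_eq (hU1 hvR)
    have e2 : FatouComponent f z = FatouComponent f v := connectedComponentIn_eq hvz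
    rw [e1, ← e2]
    exact mem_connectedComponentIn hzF

/-- points near the zero with a large image are in `U n` -/
theorem near_U (h : Sys f r σ τ b η η' Y) {n : ℕ} {z : ℂ} (h1 : ‖z - b n‖ ≤ η n)
    (h2 : σ (n + 1) < ‖f z‖) : z ∈ U f τ n := by
  set Q : Set ℂ := {w | ‖w - b n‖ < η' n ∧ σ (n + 1) < ‖f w‖} with hQ
  have hQo : IsOpen Q := by
    have c1 : Continuous fun w : ℂ => ‖w - b n‖ := by fun_prop
    exact (isOpen_lt c1 continuous_const).inter
      (isOpen_lt continuous_const h.hf.continuous.norm)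
  have hQF : Q ⊆ FatouSet f := by
    intro w hw
    apply fatou_backward h.hf.continuous
    exact h.B_fatou (n + 1) ⟨hw.2, h.cU n w hw.1.le⟩
  set C := connectedComponentIn Q z with hC
  have hzQ : z ∈ Q := ⟨h1.trans_lt (h.hηη n), h2⟩
  have hzC : z ∈ C := mem_connectedComponentIn hzQ
  have hCQ : C ⊆ Q := connectedComponentIn_subset _ _
  have hCp : IsPreconnected C := isPreconnected_connectedComponentIn
  have hmeet : ∃ w ∈ C, η n ≤ ‖w - b n‖ := by
    by_contra hcon
    push Not at hcon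
    have hsub : C ⊆ closedBall (b n : ℂ) (η n) := by
      intro w hw
      rw [mem_closedBall, dist_eq_norm]
      exact (hcon w hw).le
    have hCb : Bornology.IsBounded C := isBounded_closedBall.subset hsub
    have hmax : ‖f z‖ ≤ σ (n + 1) := by
      apply Complex.norm_le_of_forall_mem_frontier_norm_le hCb h.hf.diffContOnCl _
        (subset_closure hzC)
      intro w hw
      have h3 := frontier_comp hQo hw
      have h4 : w ∈ closedBall (b n : ℂ) (η n) :=
        closure_minimal hsub isClosed_closedBall (frontier_subset_closure hw)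
      rw [mem_closedBall, dist_eq_norm] at h4
      by_contra h5
      push Not at h5
      exact h3 ⟨h4.trans_lt (h.hηη n), h5⟩
    linarith
  obtain ⟨w, hw1, hw2⟩ := hmeet
  have hwU : w ∈ U f τ n := h.ring_U hw2 (hCQ hw1).1
  have h3 : C ⊆ FatouComponent f w := hCp.subset_connectedComponentIn hw1 (hCQ.trans hQF)
  have e1 : U f τ n = FatouComponent f w := connectedComponentIn_eq hwU
  rw [e1]
  exact h3 hzC

/-- backward invariance inside the disc -/
theorem back_U (h : Sys f r σ τ b η η' Y) {n : ℕ} {w : ℂ} (hw : ‖w‖ < σ (n + 1))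
    (hfw : f w ∈ U f τ (n + 1)) : w ∈ U f τ n := by
  have hwF : w ∈ FatouSet f := fatou_backward h.hf.continuous (U_fatou f τ _ hfw)
  have hsub := h.comp_bdd hw hwF hfw
  have hs := comp_surj h.hf.continuous h.ho hwF (isBounded_ball.subset hsub)
  have e0 : U f τ (n + 1) = FatouComponent f (f w) := connectedComponentIn_eq hfw
  rw [← e0] at hs
  have hY := h.hY1 n
  have hσ := h.hσ (n + 1)
  have hyB : ((Y n : ℝ) : ℂ) ∈ B r σ (n + 1) := by
    have : ‖((Y n : ℝ) : ℂ)‖ = Y n := by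
      rw [Complex.norm_real, Real.norm_eq_abs, abs_of_pos (by linarith)]
    constructor
    · rw [this]; exact hY.1
    · rw [this]; exact hY.2
  have hyn : ‖((Y n : ℝ) : ℂ)‖ = Y n := by
    rw [Complex.norm_real, Real.norm_eq_abs, abs_of_pos (by linarith)]
  have hyU := h.B_U (n + 1) hyB
  rw [← hs] at hyU
  obtain ⟨v, hv, hfv⟩ := hyU
  have hv2 := hsub hv
  rw [mem_ball_zero_iff] at hv2
  have hvU : v ∈ U f τ n := by
    by_cases c1 : ‖v‖ ≤ σ n
    · have := h.hY2 n v c1
      rw [hfv, hyn] at this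
      exact absurd this (lt_irrefl _)
    · push Not at c1
      by_cases c2 : ‖v‖ < r n
      · exact h.B_U n ⟨c1, c2⟩
      · push Not at c2
        by_cases c3 : η n ≤ ‖v - b n‖
        · have := h.hY3 n v c2 hv2.le c3
          rw [hfv, hyn] at this
          exact absurd this (lt_irrefl _)
        · push Not at c3
          apply h.near_U c3.le
          rw [hfv, hyn]
          exact hY.1
  have e1 : U f τ n = FatouComponent f v := connectedComponentIn_eq hvU
  have e2 : FatouComponent f w = FatouComponent f v := connectedComponentIn_eq hv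
  rw [e1, ← e2]
  exact mem_connectedComponentIn hwF

end Sys

end Pool.Agent.X282.BW
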