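import Pool.Agent.X282.BW.Fn

/-!
Bounds of the polynomial part.
-/

set_option autoImplicit false

open Filter Topology Metric Set

namespace Pool.Agent.X282.BW

noncomputable section

theorem p_succ4 (n : ℕ) (t : ℝ) :
    t ^ (n + 2) * b (n + 2) = (t * p (n + 1) ^ 4) ^ (n + 2) * b (n + 1) := by
  have h1 : b (n + 2) = b (n + 1) * p (n + 2) ^ 4 := rfl
  have h2 : p (n + 2) = p (n + 1) ^ (n + 2) := p_succ (n + 1)
  rw [h1, h2, mul_pow, ← pow_mul, ← pow_mul]
  ring

theorem T_big (n : ℕ) {t : ℝ} (ht : 1/2 ≤ t) : 2 ≤ t * p (n + 1) ^ 4 / (1000 * 2 ^ (n + 1)) := by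
  rw [le_div_iff₀ (by positivity)]
  have h := p4_ge n
  have h2 : (1048576 : ℝ) ^ (n + 1) = 524288 ^ (n + 1) * 2 ^ (n + 1) := by
    rw [← mul_pow]; norm_num
  have h3 : (524288 : ℝ) ≤ 524288 ^ (n + 1) := by
    calc (524288 : ℝ) = 524288 ^ 1 := by norm_num
      _ ≤ 524288 ^ (n + 1) := pow_le_pow_right₀ (by norm_num) (by omega)
  have h4 : (0 : ℝ) < 2 ^ (n + 1) := by positivity
  have h5 : (524288 : ℝ) * 2 ^ (n + 1) ≤ p (n + 1) ^ 4 := by
    refine le_trans ?_ h
    rw [h2]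
    exact mul_le_mul_of_nonneg_right h3 h4.le
  have h6 : 1/2 * (524288 * 2 ^ (n + 1)) ≤ t * p (n + 1) ^ 4 :=
    mul_le_mul ht h5 (by positivity) (by linarith)
  linarith

theorem UP (n : ℕ) : ∀ t : ℝ, 1/2 ≤ t → ∀ z : ℂ, ‖z‖ ≤ t * b n →
    ‖Q n z‖ ≤ (1001/1000 - 1 / (1000 * 2 ^ n)) * (t ^ (n + 1) * b (n + 1) / 4) := by
  induction n with
  | zero =>
    intro t ht z hz
    have h1 : b (0 + 1) = 1048576 := by
      rw [b_succ, b_zero]
      simp [p]
      norm_num
    rw [h1]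
    have h2 : Q 0 z = 262144 * z := by simp [Q]
    rw [h2, norm_mul]
    rw [b_zero] at hz
    norm_num
    linarith
  | succ n ih =>
    intro t ht z hz
    have hb := b_pos n
    have hb1 := b_pos (n + 1)
    set T := t * p (n + 1) ^ 4 with hT
    have hTb := T_big n ht
    rw [← hT] at hTb
    have hp := p4_big n
    have hT1 : 1/2 ≤ T := by
      have : 1/2 * 1 ≤ t * p (n + 1) ^ 4 := mul_le_mul ht (by linarith) (by norm_num) (by linarith)
      linarith
    have hzT : ‖z‖ ≤ T * b n := by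
      rw [b_succ] at hz
      rw [hT]
      calc ‖z‖ ≤ t * (b n * p (n + 1) ^ 4) := hz
        _ = t * p (n + 1) ^ 4 * b n := by ring
    have h1 := ih T hT1 z hzT
    have h2 : ‖1 - z / b n‖ ≤ 1 + T := by
      refine (norm_sub_le _ _).trans ?_
      rw [norm_one, norm_div, Complex.norm_real, Real.norm_eq_abs, abs_of_pos hb]
      have : ‖z‖ / b n ≤ T := by rwa [div_le_iff₀ hb]
      linarith
    rw [Q_succ, norm_mul, p_succ4, ← hT]
    have hTp : 0 < T ^ (n + 1) * b (n + 1) := by positivity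
    have h2n : (0 : ℝ) < 2 ^ n := by positivity
    have e1 : T / (1000 * 2 ^ (n + 1)) = T / (1000 * 2 ^ n) / 2 := by
      rw [pow_succ]; field_simp
    have e2 : 1 / (1000 * (2:ℝ) ^ (n + 1)) = 1 / (1000 * 2 ^ n) / 2 := by
      rw [pow_succ]; field_simp
    rw [e1] at hTb
    have e3 : T / (1000 * 2 ^ n) = T * (1 / (1000 * 2 ^ n)) := by ring
    rw [e3] at hTb
    set u : ℝ := 1 / (1000 * 2 ^ n) with hu
    have hu0 : 0 < u := by positivity
    have hu1 : u ≤ 1/1000 := by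
      rw [hu]
      apply one_div_le_one_div_of_le (by norm_num)
      have : (1:ℝ) ≤ 2 ^ n := one_le_pow₀ (by norm_num)
      linarith
    calc ‖Q n z‖ * ‖1 - z / b n‖
        ≤ ((1001/1000 - u) * (T ^ (n + 1) * b (n + 1) / 4)) * (1 + T) :=
          mul_le_mul h1 h2 (norm_nonneg _) (by
            have : 0 ≤ 1001/1000 - u := by linarith
            positivity)
      _ = ((1001/1000 - u) * (1 + T)) * (T ^ (n + 1) * b (n + 1) / 4) := by ring
      _ ≤ ((1001/1000 - u / 2) * T) * (T ^ (n + 1) * b (n + 1) / 4) := by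
          apply mul_le_mul_of_nonneg_right _ (by positivity)
          nlinarith
      _ = (1001/1000 - 1 / (1000 * 2 ^ (n + 1))) * (T ^ (n + 2) * b (n + 1) / 4) := by
          rw [e2, pow_succ T (n + 1)]; ring

theorem LO (n : ℕ) : ∀ t : ℝ, 1/2 ≤ t → ∀ z : ℂ, t * b n ≤ ‖z‖ →
    (999/1000 + 1 / (1000 * 2 ^ n)) * (t ^ (n + 1) * b (n + 1) / 4) ≤ ‖Q n z‖ := by
  induction n with
  | zero =>
    intro t ht z hz
    have h1 : b (0 + 1) = 1048576 := by
      rw [b_succ, b_zero]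
      simp [p]
      norm_num
    rw [h1]
    have h2 : Q 0 z = 262144 * z := by simp [Q]
    rw [h2, norm_mul]
    rw [b_zero] at hz
    norm_num
    linarith
  | succ n ih =>
    intro t ht z hz
    have hb := b_pos n
    have hb1 := b_pos (n + 1)
    set T := t * p (n + 1) ^ 4 with hT
    have hTb := T_big n ht
    rw [← hT] at hTb
    have hp := p4_big n
    have hT1 : 1 ≤ T := by
      have : 1/2 * 1048576 ≤ t * p (n + 1) ^ 4 :=
        mul_le_mul ht (by linarith) (by norm_num) (by linarith)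
      linarith
    have hzT : T * b n ≤ ‖z‖ := by
      rw [b_succ] at hz
      rw [hT]
      calc t * p (n + 1) ^ 4 * b n = t * (b n * p (n + 1) ^ 4) := by ring
        _ ≤ _ := hz
    have h1 := ih T (by linarith) z hzT
    have h2 : T - 1 ≤ ‖1 - z / b n‖ := by
      have h3 := norm_sub_norm_le (z / b n) 1
      rw [norm_one, norm_div, Complex.norm_real, Real.norm_eq_abs, abs_of_pos hb,
        norm_sub_rev] at h3
      have : T ≤ ‖z‖ / b n := by rwa [le_div_iff₀ hb]
      linarith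
    rw [Q_succ, norm_mul, p_succ4, ← hT]
    have hTp : 0 < T ^ (n + 1) * b (n + 1) := by positivity
    have h2n : (0 : ℝ) < 2 ^ n := by positivity
    have e1 : T / (1000 * 2 ^ (n + 1)) = T / (1000 * 2 ^ n) / 2 := by
      rw [pow_succ]; field_simp
    have e2 : 1 / (1000 * (2:ℝ) ^ (n + 1)) = 1 / (1000 * 2 ^ n) / 2 := by
      rw [pow_succ]; field_simp
    rw [e1] at hTb
    have e3 : T / (1000 * 2 ^ n) = T * (1 / (1000 * 2 ^ n)) := by ring
    rw [e3] at hTb
    set u : ℝ := 1 / (1000 * 2 ^ n) with hu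
    have hu0 : 0 < u := by positivity
    have hu1 : u ≤ 1/1000 := by
      rw [hu]
      apply one_div_le_one_div_of_le (by norm_num)
      have : (1:ℝ) ≤ 2 ^ n := one_le_pow₀ (by norm_num)
      linarith
    calc (999/1000 + 1 / (1000 * 2 ^ (n + 1))) * (T ^ (n + 2) * b (n + 1) / 4)
        = ((999/1000 + u / 2) * T) * (T ^ (n + 1) * b (n + 1) / 4) := by
          rw [e2, pow_succ T (n + 1)]; ring
      _ ≤ ((999/1000 + u) * (T - 1)) * (T ^ (n + 1) * b (n + 1) / 4) := by
          apply mul_le_mul_of_nonneg_right _ (by positivity)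
          nlinarith
      _ = ((999/1000 + u) * (T ^ (n + 1) * b (n + 1) / 4)) * (T - 1) := by ring
      _ ≤ ‖Q n z‖ * ‖1 - z / b n‖ :=
          mul_le_mul h1 h2 (by linarith) (norm_nonneg _)

theorem UP' (n : ℕ) {t : ℝ} (ht : 1/2 ≤ t) {z : ℂ} (hz : ‖z‖ ≤ t * b n) :
    ‖Q n z‖ ≤ 1001/1000 * (t ^ (n + 1) * b (n + 1) / 4) := by
  refine (UP n t ht z hz).trans ?_
  have hb := b_pos (n + 1)
  have : (0:ℝ) < 1 / (1000 * 2 ^ n) := by positivity
  apply mul_le_mul_of_nonneg_right (by linarith) (by positivity)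

theorem LO' (n : ℕ) {t : ℝ} (ht : 1/2 ≤ t) {z : ℂ} (hz : t * b n ≤ ‖z‖) :
    999/1000 * (t ^ (n + 1) * b (n + 1) / 4) ≤ ‖Q n z‖ := by
  refine le_trans ?_ (LO n t ht z hz)
  have hb := b_pos (n + 1)
  have : (0:ℝ) < 1 / (1000 * 2 ^ n) := by positivity
  apply mul_le_mul_of_nonneg_right (by linarith) (by positivity)

end

end Pool.Agent.X282.BW
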