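import Pool.Agent.X282.BW.Dyn

/-!
The wandering domain surrounds the origin and is infinitely connected.
-/

set_option autoImplicit false

open Filter Topology Metric Set

namespace Pool.Agent.X282.BW

open Pool.Agent.H384R2.Fatou Pool.Agent.W723.MC Pool.Agent.TH224.SC

namespace Sys

variable {f : ℂ → ℂ} {r σ τ b η η' Y : ℕ → ℝ}

theorem b_pos (h : Sys f r σ τ b η η' Y) (n : ℕ) : 0 < b n := by
  have := h.hσ n
  have := h.σ_lt_r n
  have := h.hbr n
  linarith

theorem norm_near (h : Sys f r σ τ b η η' Y) {n : ℕ} {z : ℂ} (hz : ‖z - b n‖ ≤ η n) :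
    σ n < ‖z‖ ∧ ‖z‖ < σ (n + 1) := by
  have h1 := h.hηη n
  have h2 := h.hb1 n
  have h3 := h.hb3 n
  have hb : ‖((b n : ℝ) : ℂ)‖ = b n := by
    rw [Complex.norm_real, Real.norm_eq_abs, abs_of_pos (h.b_pos n)]
  have h4 : ‖z‖ ≤ ‖z - b n‖ + ‖((b n : ℝ) : ℂ)‖ := by
    have := norm_add_le (z - b n) ((b n : ℝ) : ℂ)
    rwa [sub_add_cancel] at this
  have h5 : ‖((b n : ℝ) : ℂ)‖ ≤ ‖z - b n‖ + ‖z‖ := by
    have := norm_sub_le z (z - b n)
    rw [sub_sub_cancel] at this
    linarith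
  rw [hb] at h4 h5
  constructor <;> linarith

/-- the complementary component of `0` is bounded -/
theorem mult (h : Sys f r σ τ b η η' Y) (n : ℕ) :
    Bornology.IsBounded (connectedComponentIn (U f τ n)ᶜ 0) := by
  have h0 : (0 : ℂ) ∈ (U f τ n)ᶜ := h.not_U_zero n
  apply (isBounded_closedBall (x := (0 : ℂ)) (r := r n)).subset
  intro z hz
  rw [mem_closedBall_zero_iff]
  by_contra hcon
  push Not at hcon
  obtain ⟨t, ht1, ht2⟩ := exists_between (h.σ_lt_r n)
  have hσ := h.hσ n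
  obtain ⟨w, hw, hwt⟩ := cross isPreconnected_connectedComponentIn (mem_connectedComponentIn h0) hz
    (t := t) (by rw [norm_zero]; linarith) (by linarith)
  have h1 : w ∈ B r σ n := ⟨by linarith, by linarith⟩
  exact connectedComponentIn_subset _ _ hw (h.B_U n h1)

theorem onto (h : Sys f r σ τ b η η' Y) (m : ℕ) {w : ℂ} (hw : ‖w‖ < σ (m + 1)) :
    ∃ z, ‖z‖ < σ m ∧ f z = w := by
  have hpre : IsPreconnected (ball (0 : ℂ) (σ (m + 1))) := (convex_ball _ _).isPreconnected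
  have hcpt : IsCompact (closedBall (0 : ℂ) (σ m)) := isCompact_closedBall _ _
  have hsub : ball (0 : ℂ) (σ (m + 1)) ⊆ f '' ball 0 (σ m) := by
    apply hpre.subset_of_closure_inter_subset (h.ho _ isOpen_ball)
    · exact ⟨0, mem_ball_self (h.hσ _), 0, mem_ball_self (h.hσ _), h.hf0⟩
    · rintro v ⟨hv1, hv2⟩
      have h1 : closure (f '' ball 0 (σ m)) ⊆ f '' closedBall 0 (σ m) :=
        closure_minimal (image_mono ball_subset_closedBall)
          (hcpt.image h.hf.continuous).isClosed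
      obtain ⟨z, hz, rfl⟩ := h1 hv1
      rw [mem_closedBall_zero_iff] at hz
      rcases hz.lt_or_eq with hz | hz
      · exact ⟨z, mem_ball_zero_iff.2 hz, rfl⟩
      · have h2 := h.low m z hz.ge (by rw [hz]; exact (h.σ_lt_r m).le)
        rw [mem_ball_zero_iff] at hv2
        linarith
  obtain ⟨z, hz, hzw⟩ := hsub (mem_ball_zero_iff.2 hw)
  exact ⟨z, mem_ball_zero_iff.1 hz, hzw⟩

theorem onto_iter (h : Sys f r σ τ b η η' Y) (n : ℕ) : ∀ w : ℂ, ‖w‖ < σ (n + 1) →
    ∃ p, (∀ i ≤ n, ‖f^[i] p‖ < σ (i + 1)) ∧ f^[n] p = w := by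
  induction n with
  | zero =>
    intro w hw
    refine ⟨w, fun i hi => ?_, rfl⟩
    have : i = 0 := by omega
    subst this
    exact hw
  | succ n ih =>
    intro w hw
    obtain ⟨v, hv, hvw⟩ := h.onto (n + 1) hw
    obtain ⟨p, hp1, hp2⟩ := ih v hv
    refine ⟨p, fun i hi => ?_, ?_⟩
    · rcases Nat.lt_or_ge i (n + 1) with h1 | h1
      · exact hp1 i (by omega)
      · have : i = n + 1 := by omega
        subst this
        rw [Function.iterate_succ_apply', hp2, hvw]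
        exact hw
    · rw [Function.iterate_succ_apply', hp2, hvw]

/-- the pieces of the complement -/
def X (f : ℂ → ℂ) (σ τ b η : ℕ → ℝ) (n : ℕ) : Set ℂ :=
  {z | (∀ i < n, ‖f^[i] z‖ ≤ σ (i + 1)) ∧ ‖f^[n] z - b n‖ ≤ η n ∧ f^[n] z ∉ U f τ n}

/-- their neighbourhoods -/
def O (f : ℂ → ℂ) (σ b η' : ℕ → ℝ) (n : ℕ) : Set ℂ :=
  {z | (∀ i < n, ‖f^[i] z‖ < σ (i + 1)) ∧ ‖f^[n] z - b n‖ < η' n}

theorem X_sub_O (h : Sys f r σ τ b η η' Y) (n : ℕ) : X f σ τ b η n ⊆ O f σ b η' n := by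
  rintro z ⟨h1, h2, h3⟩
  refine ⟨fun i hi => ?_, h2.trans_lt (h.hηη n)⟩
  refine lt_of_le_of_ne (h1 i hi) fun heq => ?_
  have h4 := h.low (i + 1) (f^[i] z) heq.ge (by rw [heq]; exact (h.σ_lt_r _).le)
  rw [← Function.iterate_succ_apply' f] at h4
  rcases Nat.lt_or_ge (i + 1) n with h5 | h5
  · have := h1 (i + 1) h5
    linarith
  · have h6 : i + 1 = n := by omega
    subst h6
    have := (h.norm_near h2).2
    linarith

theorem X_not_U (h : Sys f r σ τ b η η' Y) {n : ℕ} {z : ℂ} (hz : z ∈ X f σ τ b η n) :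
    z ∉ U f τ 0 := by
  intro hzU
  have := h.U_map 0 n ⟨z, hzU, rfl⟩
  rw [zero_add] at this
  exact hz.2.2 this

theorem O_sub (h : Sys f r σ τ b η η' Y) {n : ℕ} {z : ℂ} (hz : z ∈ O f σ b η' n)
    (hU : z ∉ U f τ 0) : z ∈ X f σ τ b η n := by
  have h1 : ∀ i ≤ n, f^[i] z ∉ U f τ i := by
    intro i
    induction i with
    | zero => intro _; exact hU
    | succ i ih =>
      intro hi h2
      apply ih (by omega)
      apply h.back_U (hz.1 i (by omega))
      rw [← Function.iterate_succ_apply' f]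
      exact h2
  refine ⟨fun i hi => (hz.1 i hi).le, ?_, h1 n le_rfl⟩
  by_contra hcon
  push Not at hcon
  exact h1 n le_rfl (h.ring_U hcon.le hz.2)

theorem O_open (h : Sys f r σ τ b η η' Y) (n : ℕ) : IsOpen (O f σ b η' n) := by
  have hc : ∀ i, Continuous f^[i] := fun i => h.hf.continuous.iterate i
  have h1 : O f σ b η' n = (⋂ i ∈ Finset.range n, {z | ‖f^[i] z‖ < σ (i + 1)}) ∩
      {z | ‖f^[n] z - b n‖ < η' n} := by
    ext z
    simp [O]
  rw [h1]
  refine IsOpen.inter ?_ ?_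
  · apply isOpen_biInter_finset
    intro i _
    exact isOpen_lt (hc i).norm continuous_const
  · exact isOpen_lt ((hc n).sub continuous_const).norm continuous_const

theorem X_closed (h : Sys f r σ τ b η η' Y) (n : ℕ) : IsClosed (X f σ τ b η n) := by
  have hc : ∀ i, Continuous f^[i] := fun i => h.hf.continuous.iterate i
  have h1 : X f σ τ b η n = (⋂ i, ⋂ (_ : i < n), {z | ‖f^[i] z‖ ≤ σ (i + 1)}) ∩
      ({z | ‖f^[n] z - b n‖ ≤ η n} ∩ (f^[n] ⁻¹' (U f τ n)ᶜ)) := by
    ext z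
    simp [X]
  rw [h1]
  refine IsClosed.inter ?_ (IsClosed.inter ?_ ?_)
  · apply isClosed_iInter
    intro i
    apply isClosed_iInter
    intro _
    exact isClosed_le (hc i).norm continuous_const
  · exact isClosed_le ((hc n).sub continuous_const).norm continuous_const
  · exact (U_open f τ n).isClosed_compl.preimage (hc n)

theorem X_compact (h : Sys f r σ τ b η η' Y) (n : ℕ) : IsCompact (X f σ τ b η n) := by
  apply IsCompact.of_isClosed_subset (isCompact_closedBall (0 : ℂ) (σ 1)) (h.X_closed n)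
  rintro z ⟨h1, h2, -⟩
  rw [mem_closedBall_zero_iff]
  rcases Nat.eq_zero_or_pos n with h3 | h3
  · subst h3
    exact (h.norm_near h2).2.le
  · exact h1 0 h3

theorem X_nonempty (h : Sys f r σ τ b η η' Y) (n : ℕ) : (X f σ τ b η n).Nonempty := by
  have h1 := (h.norm_near (n := n) (z := ((b n : ℝ) : ℂ)) (by simpa using (h.hη n).le)).2
  obtain ⟨p, hp1, hp2⟩ := h.onto_iter n _ h1
  refine ⟨p, fun i hi => (hp1 i hi.le).le, ?_, ?_⟩
  · rw [hp2]; simpa using (h.hη n).le
  · rw [hp2]; exact h.not_U_b n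

theorem X_disj (h : Sys f r σ τ b η η' Y) {n m : ℕ} (hnm : n < m) {z : ℂ}
    (hz1 : z ∈ X f σ τ b η n) (hz2 : z ∈ X f σ τ b η m) : False := by
  have h1 : ∀ j, ‖f^[n + 1 + j] z‖ < r (n + 1 + j) := by
    intro j
    induction j with
    | zero =>
      rw [add_zero, Function.iterate_succ_apply']
      exact h.cU n _ (hz1.2.1.trans (h.hηη n).le)
    | succ j ih =>
      rw [← add_assoc, Function.iterate_succ_apply']
      exact h.up _ _ ih.le
  obtain ⟨j, hj⟩ : ∃ j, m = n + 1 + j := ⟨m - (n + 1), by omega⟩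
  have h2 := h1 j
  rw [← hj] at h2
  exact hz2.2.2 (h.B_U m ⟨(h.norm_near hz2.2.1).1, h2⟩)

/-- the wandering domain is infinitely connected -/
theorem holes (h : Sys f r σ τ b η η' Y) : (SphereHoles (U f τ 0)).Infinite := by
  set A : Set (OnePoint ℂ) := ((↑) : ℂ → OnePoint ℂ) '' U f τ 0 with hA
  choose x hx using fun n => h.X_nonempty n
  have hxA : ∀ n, ((x n : ℂ) : OnePoint ℂ) ∈ Aᶜ := by
    rintro n ⟨z, hz, hzx⟩
    have : z = x n := OnePoint.coe_injective hzx
    subst this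
    exact h.X_not_U (hx n) hz
  have hsep : ∀ n m, n ≠ m →
      ((x m : ℂ) : OnePoint ℂ) ∉ connectedComponentIn Aᶜ ((x n : ℂ) : OnePoint ℂ) := by
    intro n m hnm hmem
    set S := connectedComponentIn Aᶜ ((x n : ℂ) : OnePoint ℂ) with hS
    have hSp : IsPreconnected S := isPreconnected_connectedComponentIn
    have hSA : S ⊆ Aᶜ := connectedComponentIn_subset _ _
    have hO1 : IsOpen (((↑) : ℂ → OnePoint ℂ) '' O f σ b η' n) :=
      OnePoint.isOpenEmbedding_coe.isOpenMap _ (h.O_open n)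
    have hX1 : IsClosed (((↑) : ℂ → OnePoint ℂ) '' X f σ τ b η n) :=
      ((h.X_compact n).image OnePoint.continuous_coe).isClosed
    have hcov : S ⊆ ((↑) : ℂ → OnePoint ℂ) '' O f σ b η' n ∪
        (((↑) : ℂ → OnePoint ℂ) '' X f σ τ b η n)ᶜ := by
      intro y _
      by_cases hy : y ∈ ((↑) : ℂ → OnePoint ℂ) '' X f σ τ b η n
      · exact Or.inl (image_mono (h.X_sub_O n) hy)
      · exact Or.inr hy
    have hne1 : (S ∩ ((↑) : ℂ → OnePoint ℂ) '' O f σ b η' n).Nonempty :=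
      ⟨_, mem_connectedComponentIn (hxA n), ⟨x n, h.X_sub_O n (hx n), rfl⟩⟩
    have hne2 : (S ∩ (((↑) : ℂ → OnePoint ℂ) '' X f σ τ b η n)ᶜ).Nonempty := by
      refine ⟨_, hmem, ?_⟩
      rintro ⟨z, hz, hzx⟩
      have : z = x m := OnePoint.coe_injective hzx
      subst this
      rcases lt_or_gt_of_ne hnm with h1 | h1
      · exact h.X_disj h1 hz (hx m)
      · exact h.X_disj h1 (hx m) hz
    obtain ⟨y, hyS, hy1, hy2⟩ := hSp _ _ hO1 hX1.isOpen_compl hcov hne1 hne2
    obtain ⟨z, hz, rfl⟩ := hy1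
    apply hy2
    refine ⟨z, h.O_sub hz ?_, rfl⟩
    intro hzU
    exact hSA hyS ⟨z, hzU, rfl⟩
  apply Set.infinite_of_injective_forall_mem
    (f := fun j : ℕ => connectedComponentIn Aᶜ ((x j : ℂ) : OnePoint ℂ))
  · intro j k hjk
    have hjk : connectedComponentIn Aᶜ ((x j : ℂ) : OnePoint ℂ) =
      connectedComponentIn Aᶜ ((x k : ℂ) : OnePoint ℂ) := hjk
    by_contra hne
    apply hsep j k hne
    rw [hjk]
    exact mem_connectedComponentIn (hxA k)
  · intro j
    exact ⟨_, hxA j, rfl⟩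

end Sys

end Pool.Agent.X282.BW
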