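import Pool.Agent.X282.BW.Ver
import Pool.Agent.X282.BW.Holes

/-!
The system of radii for the function `fn`.
-/

set_option autoImplicit false

open Filter Topology Metric Set

namespace Pool.Agent.X282.BW

noncomputable section

theorem g_loc (m : ℕ) (R : ℝ) :
    HasProdLocallyUniformlyOn (fun (k : ℕ) (z : ℂ) => 1 + -(z / (b (k + m) : ℂ)))
      (fun z => ∏' k : ℕ, (1 + -(z / (b (k + m) : ℂ)))) (ball 0 R) := by
  have hs : Summable (fun k : ℕ => ‖-((R:ℂ) / (b (k + m) : ℂ))‖) := (tail_summable m (R : ℂ)).1
  apply Summable.hasProdLocallyUniformlyOn_nat_one_add isOpen_ball hs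
  · filter_upwards with k z hz
    rw [mem_ball_zero_iff] at hz
    rw [norm_neg, norm_neg, norm_div, norm_div]
    have hR : ‖z‖ ≤ ‖(R:ℂ)‖ := by
      rw [Complex.norm_real]; exact hz.le.trans (le_abs_self R)
    exact div_le_div_of_nonneg_right hR (norm_nonneg _)
  · intro k
    fun_prop

theorem g_diff (m : ℕ) : Differentiable ℂ (g m) := by
  intro z
  have h := g_loc m (‖z‖ + 1)
  rw [hasProdLocallyUniformlyOn_iff_tendstoLocallyUniformlyOn] at h
  have h1 := h.differentiableOn (Eventually.of_forall fun s => by fun_prop) isOpen_ball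
  exact h1.differentiableAt (isOpen_ball.mem_nhds (by rw [mem_ball_zero_iff]; linarith))

theorem fn_diff : Differentiable ℂ fn := by
  unfold fn
  have := g_diff 0
  fun_prop

theorem fn_zero : fn 0 = 0 := by simp [fn]

theorem fn_b (n : ℕ) : fn (b n) = 0 := by
  rw [fn_eq n]
  have : (b n : ℂ) ≠ 0 := by exact_mod_cast (b_pos n).ne'
  rw [div_self this]
  simp

theorem fn_half : fn (1/2) ≠ 0 := by
  intro h
  have h1 := v_low 0 (1/2) (by norm_num [sg]) (by
    have := rr_ge 0
    rw [b_zero] at this
    norm_num
    linarith)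
  rw [h, norm_zero] at h1
  have : sg (0 + 1) = 64 := by simp [sg, b_zero]
  rw [this] at h1
  norm_num at h1

theorem fn_open : IsOpenMap fn := by
  have h : AnalyticOnNhd ℂ fn univ := fn_diff.differentiableOn.analyticOnNhd isOpen_univ
  rcases h.is_constant_or_isOpenMap with ⟨w, hw⟩ | h1
  · exfalso
    apply fn_half
    rw [hw, ← hw 0, fn_zero]
  · exact h1

theorem b_le (n : ℕ) : b n ≤ p n ^ 8 := by
  induction n with
  | zero =>
    rw [b_zero]
    exact one_le_pow₀ (by have := p_ge 0; linarith)
  | succ n ih =>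
    rw [b_succ]
    have hp := p_ge (n+1)
    have h1 : b n ≤ p (n+1)^4 := by
      cases n with
      | zero => rw [b_zero]; exact one_le_pow₀ (by linarith)
      | succ m =>
        refine ih.trans ?_
        rw [p_succ (m+1), ← pow_mul]
        exact pow_le_pow_right₀ (by have := p_ge (m+1); linarith) (by omega)
    calc b n * p (n+1)^4 ≤ p (n+1)^4 * p (n+1)^4 :=
          mul_le_mul_of_nonneg_right h1 (by positivity)
      _ = _ := by ring

theorem rr_le (n : ℕ) : rr n < b n := by
  unfold rr
  have := xx_pos n
  have := b_pos n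
  nlinarith

theorem rr_pos (n : ℕ) : 0 < rr n := by
  have := rr_ge n
  have := b_pos n
  linarith

theorem v_grow (K : ℝ) : ∀ᶠ n in atTop, K * Real.log (rr n) < Real.log (ta (n + 1)) := by
  filter_upwards [eventually_ge_atTop 1,
    (tendsto_natCast_atTop_atTop (R := ℝ)).eventually_gt_atTop (8 * |K|)] with n hn hK
  have hb := b_pos n
  have hp := p_ge n
  have hL : 0 < Real.log (p n) := Real.log_pos (by linarith)
  have h1 : Real.log (rr n) ≤ 8 * Real.log (p n) := by
    have h2 := Real.log_le_log (rr_pos n) ((rr_le n).le.trans (b_le n))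
    rw [Real.log_pow] at h2
    exact_mod_cast h2
  have h0 : 0 ≤ Real.log (rr n) := by
    apply Real.log_nonneg
    have h2 := rr_ge n
    obtain ⟨m, rfl⟩ : ∃ m, n = m + 1 := ⟨n - 1, by omega⟩
    have h3 := b_succ_ge m
    have h4 := b_ge_one m
    linarith
  have h3 : K * Real.log (rr n) ≤ |K| * (8 * Real.log (p n)) :=
    (mul_le_mul_of_nonneg_right (le_abs_self K) h0).trans
      (mul_le_mul_of_nonneg_left h1 (abs_nonneg K))
  have h4 : ((n:ℝ)+1) * Real.log (p n) ≤ Real.log (ta (n+1)) := by
    have h5 : p n ^ (n+1) ≤ ta (n+1) := by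
      rw [← p_succ]
      show p (n+1) ≤ 64 * b n * p (n+1)
      have h6 := b_ge_one n
      have h7 := p_pos (n+1)
      nlinarith
    have h6 := Real.log_le_log (pow_pos (p_pos n) _) h5
    rw [Real.log_pow] at h6
    push_cast at h6
    exact h6
  have h5 : 8 * |K| * Real.log (p n) < ((n:ℝ)+1) * Real.log (p n) :=
    mul_lt_mul_of_pos_right (by linarith) hL
  linarith

theorem sg_pos (n : ℕ) : 0 < sg n := by
  cases n with
  | zero => norm_num [sg]
  | succ m =>
    have := b_pos m
    show 0 < 64 * b m
    linarith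

theorem nat_le_b (n : ℕ) : (n : ℝ) ≤ b n := by
  induction n with
  | zero => simp [b_zero]
  | succ n ih =>
    have h1 := b_succ_ge n
    have h2 := b_ge_one n
    push_cast
    linarith

theorem sg_tend : Tendsto sg atTop atTop := by
  rw [← tendsto_add_atTop_iff_nat 1]
  apply tendsto_atTop_mono (f := fun n : ℕ => (n : ℝ)) _ tendsto_natCast_atTop_atTop
  intro n
  have h1 := nat_le_b n
  have h2 := b_pos n
  show (n : ℝ) ≤ 64 * b n
  linarith

theorem sys : Sys fn rr sg ta b et et' YY where
  hf := fn_diff
  ho := fn_open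
  hf0 := fn_zero
  hσ := sg_pos
  hστ := by
    intro n
    cases n with
    | zero => norm_num [sg, ta]
    | succ m =>
      have h1 := b_pos m
      have h2 := p_ge (m + 1)
      show 64 * b m < 64 * b m * p (m + 1)
      nlinarith
  hτr := by
    intro n
    have h0 := rr_ge n
    cases n with
    | zero =>
      rw [b_zero] at h0
      have : ta 0 = 1/2 := rfl
      linarith
    | succ m =>
      have h1 := b_pos m
      have h2 := p_ge (m + 1)
      rw [b_succ] at h0
      refine lt_of_lt_of_le ?_ h0
      show 64 * b m * p (m + 1) < _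
      have h3 : (32:ℝ) ^ 3 ≤ p (m + 1) ^ 3 := pow_le_pow_left₀ (by norm_num) h2 3
      have h4 : 0 < b m * p (m + 1) := by positivity
      have e : 3 / 4 * (b m * p (m + 1) ^ 4) = 3 / 4 * p (m + 1) ^ 3 * (b m * p (m + 1)) := by
        ring
      rw [e]
      nlinarith
  hrσ := by
    intro n
    have h1 := rr_le n
    have h2 := b_pos n
    show rr n < 64 * b n
    linarith
  htend := sg_tend
  up := v_up
  low := v_low
  lowτ := v_lowτ
  grow := v_grow
  hη := by
    intro n
    have h1 := xx_pos n
    have h2 := b_pos n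
    unfold et
    positivity
  hηη := by
    intro n
    have h1 := xx_pos n
    have h2 := b_pos n
    unfold et et'
    have : 0 < xx n * b n := by positivity
    linarith
  hbr := rr_le
  hb1 := by
    intro n
    have h1 := xx_le n
    have h2 := b_pos n
    have h3 : et' n ≤ 1/2 * b n := mul_le_mul_of_nonneg_right h1 h2.le
    cases n with
    | zero =>
      rw [b_zero] at h3 ⊢
      have : sg 0 = 1/64 := rfl
      linarith
    | succ m =>
      have h4 := b_succ_ge m
      have h5 := b_pos m
      show 64 * b m < _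
      linarith
  hb2 := by
    intro n
    have h1 := xx_pos n
    have h2 := b_pos n
    unfold et rr
    have : 0 < xx n * b n := by positivity
    linarith
  hb3 := by
    intro n
    have h1 := xx_le n
    have h2 := b_pos n
    have h3 : et' n ≤ 1/2 * b n := mul_le_mul_of_nonneg_right h1 h2.le
    show _ < 64 * b n
    linarith
  hfb := fn_b
  cU := v_cU
  cL := v_cL
  hY1 := v_Y1
  hY2 := v_Y2
  hY3 := v_Y3

end

end Pool.Agent.X282.BW
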