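import Pool.Agent.X282.BW.Crit

/-!
Assembly: transcendence, the outer and inner component, disjointness.
-/

set_option autoImplicit false

open Filter Topology Metric Set Polynomial

namespace Pool.Agent.X282.BW

open Pool.Agent.H384R2.Fatou Pool.Agent.W723.MC Pool.Agent.TH224.SC

/-- `A` surrounds the origin: `0` is not in `A`, and the component of the complement of `A` in the
Riemann sphere `OnePoint ℂ` that contains `0` does not contain `∞`. -/
def SurroundsZero (A : Set ℂ) : Prop :=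
  (0 : ℂ) ∉ A ∧ OnePoint.infty ∉
    connectedComponentIn (((↑) : ℂ → OnePoint ℂ) '' A)ᶜ ((0 : ℂ) : OnePoint ℂ)

theorem fn_trans : TransEntire fn := by
  refine ⟨fn_diff, ?_⟩
  rintro ⟨P, hP⟩
  have h1 : {z : ℂ | P.eval z = (0 : ℂ[X]).eval z}.Infinite := by
    apply Set.infinite_of_injective_forall_mem (f := fun n : ℕ => ((b n : ℝ) : ℂ))
    · intro m n hmn
      exact b_strictMono.injective (Complex.ofReal_injective hmn)
    · intro n
      show P.eval ((b n : ℝ) : ℂ) = _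
      rw [← hP, fn_b, eval_zero]
  have h2 : P = 0 := Polynomial.eq_of_infinite_eval_eq P 0 h1
  apply fn_half
  rw [hP, h2, eval_zero]

namespace Sys

variable {f : ℂ → ℂ} {r σ τ b η η' Y : ℕ → ℝ}

theorem U_disj (h : Sys f r σ τ b η η' Y) {j k : ℕ} (hjk : j ≠ k) :
    Disjoint (U f τ j) (U f τ k) := by
  rw [Set.disjoint_left]
  intro z h1 h2
  apply h.U_ne hjk
  exact (connectedComponentIn_eq h1).trans (connectedComponentIn_eq h2).symm

theorem surrounds (h : Sys f r σ τ b η η' Y) (n : ℕ) : SurroundsZero (U f τ n) := by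
  refine ⟨h.not_U_zero n, ?_⟩
  intro hinf
  set A : Set (OnePoint ℂ) := ((↑) : ℂ → OnePoint ℂ) '' U f τ n with hA
  have h0A : ((0 : ℂ) : OnePoint ℂ) ∈ Aᶜ := by
    rintro ⟨z, hz, hz0⟩
    have : z = 0 := OnePoint.coe_injective hz0
    subst this
    exact h.not_U_zero n hz
  set S := connectedComponentIn Aᶜ ((0 : ℂ) : OnePoint ℂ) with hS
  have hSp : IsPreconnected S := isPreconnected_connectedComponentIn
  have hSA : S ⊆ Aᶜ := connectedComponentIn_subset _ _
  have hs := h.hσ n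
  obtain ⟨s, hs1, hs2⟩ := exists_between (h.σ_lt_r n)
  obtain ⟨t, ht1, ht2⟩ := exists_between hs2
  have hO1 : IsOpen (((↑) : ℂ → OnePoint ℂ) '' ball (0 : ℂ) t) :=
    OnePoint.isOpenEmbedding_coe.isOpenMap _ isOpen_ball
  have hX1 : IsClosed (((↑) : ℂ → OnePoint ℂ) '' closedBall (0 : ℂ) s) :=
    ((isCompact_closedBall (0 : ℂ) s).image OnePoint.continuous_coe).isClosed
  have hcov : S ⊆ ((↑) : ℂ → OnePoint ℂ) '' ball (0 : ℂ) t ∪
      (((↑) : ℂ → OnePoint ℂ) '' closedBall (0 : ℂ) s)ᶜ := by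
    intro y _
    by_cases hy : y ∈ ((↑) : ℂ → OnePoint ℂ) '' closedBall (0 : ℂ) s
    · exact Or.inl (image_mono (closedBall_subset_ball ht1) hy)
    · exact Or.inr hy
  have hne1 : (S ∩ ((↑) : ℂ → OnePoint ℂ) '' ball (0 : ℂ) t).Nonempty :=
    ⟨_, mem_connectedComponentIn h0A, ⟨0, mem_ball_self (by linarith), rfl⟩⟩
  have hne2 : (S ∩ (((↑) : ℂ → OnePoint ℂ) '' closedBall (0 : ℂ) s)ᶜ).Nonempty := by
    refine ⟨_, hinf, ?_⟩
    rintro ⟨z, -, hz⟩
    exact OnePoint.coe_ne_infty z hz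
  obtain ⟨y, hyS, hy1, hy2⟩ := hSp _ _ hO1 hX1.isOpen_compl hcov hne1 hne2
  obtain ⟨z, hz, rfl⟩ := hy1
  rw [mem_ball_zero_iff] at hz
  apply hy2
  refine ⟨z, ?_, rfl⟩
  rw [mem_closedBall_zero_iff]
  by_contra hcon
  push Not at hcon
  exact hSA hyS ⟨z, h.B_U n ⟨by linarith, by linarith⟩, rfl⟩

end Sys

end Pool.Agent.X282.BW
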