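import Mathlib

/-!
The function `C z ∏ (1 - z / b k)` with rapidly growing zeros: definitions and basic bounds.
-/

set_option autoImplicit false

open Filter Topology Metric Set

namespace Pool.Agent.X282.BW

noncomputable section

/-- `32 ^ n!` -/
def p (n : ℕ) : ℝ := (32 : ℝ) ^ n.factorial

/-- the zeros -/
def b : ℕ → ℝ
  | 0 => 1
  | n + 1 => b n * p (n + 1) ^ 4

/-- the polynomial part -/
def Q (n : ℕ) (z : ℂ) : ℂ := 262144 * z * ∏ k ∈ Finset.range n, (1 + -(z / (b k : ℂ)))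

/-- the tail -/
def g (n : ℕ) (z : ℂ) : ℂ := ∏' k : ℕ, (1 + -(z / (b (k + n) : ℂ)))

/-- the function -/
def fn (z : ℂ) : ℂ := 262144 * z * g 0 z

theorem p_succ (n : ℕ) : p (n + 1) = p n ^ (n + 1) := by
  unfold p
  rw [← pow_mul, Nat.factorial_succ, mul_comm]

theorem p_ge (n : ℕ) : 32 ≤ p n := by
  unfold p
  calc (32 : ℝ) = 32 ^ 1 := by norm_num
    _ ≤ 32 ^ n.factorial := pow_le_pow_right₀ (by norm_num) (Nat.factorial_pos n)

theorem p_pos (n : ℕ) : 0 < p n := lt_of_lt_of_le (by norm_num) (p_ge n)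

theorem p_ge' (n : ℕ) : (32 : ℝ) ^ (n + 1) ≤ p (n + 1) := by
  unfold p
  exact pow_le_pow_right₀ (by norm_num) (Nat.self_le_factorial (n + 1))

theorem b_zero : b 0 = 1 := rfl

theorem b_succ (n : ℕ) : b (n + 1) = b n * p (n + 1) ^ 4 := rfl

theorem b_pos (n : ℕ) : 0 < b n := by
  induction n with
  | zero => simp [b_zero]
  | succ n ih => rw [b_succ]; have := p_pos (n + 1); positivity

theorem p4_ge (n : ℕ) : (1048576 : ℝ) ^ (n + 1) ≤ p (n + 1) ^ 4 := by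
  have h := pow_le_pow_left₀ (by positivity) (p_ge' n) 4
  calc (1048576 : ℝ) ^ (n + 1) = ((32 : ℝ) ^ (n + 1)) ^ 4 := by
        rw [← pow_mul, mul_comm, pow_mul]; norm_num
    _ ≤ _ := h

theorem sq_le (n : ℕ) : ((n : ℝ) + 2) ^ 2 ≤ 4 * 16384 ^ n := by
  induction n with
  | zero => norm_num
  | succ n ih =>
    push_cast
    rw [pow_succ (16384 : ℝ)]
    have : (0:ℝ) ≤ n := Nat.cast_nonneg n
    nlinarith

theorem big (n : ℕ) : 262144 * 64 ^ n * ((n : ℝ) + 2) ^ 2 ≤ p (n + 1) ^ 4 := by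
  refine le_trans ?_ (p4_ge n)
  have h := sq_le n
  have h2 : (1048576 : ℝ) ^ n = 64 ^ n * 16384 ^ n := by rw [← mul_pow]; norm_num
  have h3 : (0 : ℝ) < 64 ^ n := by positivity
  rw [pow_succ (1048576 : ℝ), h2]
  nlinarith

theorem p4_big (n : ℕ) : 1048576 ≤ p (n + 1) ^ 4 := by
  have h := big n
  have h1 : (1 : ℝ) ≤ 64 ^ n := one_le_pow₀ (by norm_num)
  have h2 : (0:ℝ) ≤ n := Nat.cast_nonneg n
  have h3 : (4 : ℝ) ≤ ((n : ℝ) + 2) ^ 2 := by nlinarith
  have h4 : (262144 : ℝ) * 1 * 4 ≤ 262144 * 64 ^ n * ((n : ℝ) + 2) ^ 2 := by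
    apply mul_le_mul _ h3 (by norm_num) (by positivity)
    linarith
  linarith

theorem b_succ_ge (n : ℕ) : 1048576 * b n ≤ b (n + 1) := by
  rw [b_succ]
  have := p4_big n
  have := b_pos n
  nlinarith

theorem b_add_ge (n m : ℕ) : 1048576 ^ m * b n ≤ b (n + m) := by
  induction m with
  | zero => simp
  | succ m ih =>
    have := b_succ_ge (n + m)
    rw [← add_assoc]
    rw [pow_succ]
    nlinarith

theorem b_strictMono : StrictMono b := by
  apply strictMono_nat_of_lt_succ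
  intro n
  have := b_succ_ge n
  have := b_pos n
  linarith

theorem b_ge_one (n : ℕ) : 1 ≤ b n := by
  have := b_strictMono.monotone (Nat.zero_le n)
  rwa [b_zero] at this

/-- tail sums -/
theorem tail_summable (n : ℕ) (z : ℂ) :
    Summable (fun k : ℕ => ‖-(z / (b (k + n) : ℂ))‖) ∧
    ∑' k : ℕ, ‖-(z / (b (k + n) : ℂ))‖ ≤ 2 * (‖z‖ / b n) := by
  have hg : Summable (fun k : ℕ => (‖z‖ / b n) * (1/1048576 : ℝ) ^ k) :=
    (summable_geometric_of_lt_one (by norm_num) (by norm_num)).mul_left _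
  have hle : ∀ k : ℕ, ‖-(z / (b (k + n) : ℂ))‖ ≤ (‖z‖ / b n) * (1/1048576 : ℝ) ^ k := by
    intro k
    rw [norm_neg, norm_div, Complex.norm_real, Real.norm_eq_abs, abs_of_pos (b_pos _)]
    have h1 := b_add_ge n k
    rw [add_comm n k] at h1
    have hb := b_pos n
    have hb2 := b_pos (k + n)
    rw [div_le_iff₀ hb2, one_div, inv_pow]
    have h2 : (0 : ℝ) < 1048576 ^ k := by positivity
    have h3 : ‖z‖ / b n * ((1048576 : ℝ) ^ k)⁻¹ * (1048576 ^ k * b n) = ‖z‖ := by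
      field_simp
    calc ‖z‖ = ‖z‖ / b n * ((1048576 : ℝ) ^ k)⁻¹ * (1048576 ^ k * b n) := h3.symm
      _ ≤ ‖z‖ / b n * ((1048576 : ℝ) ^ k)⁻¹ * b (k + n) := by gcongr
  have hs : Summable (fun k : ℕ => ‖-(z / (b (k + n) : ℂ))‖) :=
    Summable.of_nonneg_of_le (fun _ => norm_nonneg _) hle hg
  refine ⟨hs, (hs.tsum_le_tsum hle hg).trans ?_⟩
  rw [tsum_mul_left, tsum_geometric_of_lt_one (by norm_num) (by norm_num)]
  have : 0 ≤ ‖z‖ / b n := div_nonneg (norm_nonneg _) (b_pos n).le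
  rw [mul_comm]
  apply mul_le_mul_of_nonneg_right _ this
  norm_num

theorem g_mult (n : ℕ) (z : ℂ) : Multipliable fun k : ℕ => (1 + -(z / (b (k + n) : ℂ))) :=
  multipliable_one_add_of_summable (tail_summable n z).1

theorem g_near (n : ℕ) (z : ℂ) : ‖g n z - 1‖ ≤ Real.exp (2 * (‖z‖ / b n)) - 1 := by
  have h1 : Tendsto (fun s : Finset ℕ => ‖∏ k ∈ s, (1 + -(z / (b (k + n) : ℂ))) - 1‖) atTop
      (𝓝 ‖g n z - 1‖) := ((g_mult n z).hasProd.sub_const 1).norm
  refine le_of_tendsto' h1 fun s => ?_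
  refine (Finset.norm_prod_one_add_sub_one_le s _).trans ?_
  have h2 := ((tail_summable n z).1.sum_le_tsum s (fun _ _ => norm_nonneg _)).trans
    (tail_summable n z).2
  have := Real.exp_le_exp.2 h2
  linarith

theorem g_near' (n : ℕ) {z : ℂ} (hz : ‖z‖ ≤ 64 * b n) : ‖g (n + 1) z - 1‖ ≤ 1/1000 := by
  refine (g_near (n + 1) z).trans ?_
  have h1 := b_succ_ge n
  have hb := b_pos n
  have hb1 := b_pos (n + 1)
  have h2 : 2 * (‖z‖ / b (n + 1)) ≤ 1/2001 := by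
    have : ‖z‖ / b (n + 1) ≤ 64 / 1048576 := by
      rw [div_le_iff₀ hb1]
      nlinarith
    linarith
  have h3 : 0 ≤ 2 * (‖z‖ / b (n + 1)) := by positivity
  have h4 := Real.abs_exp_sub_one_le (x := 2 * (‖z‖ / b (n + 1)))
    (by rw [abs_of_nonneg h3]; linarith)
  rw [abs_of_nonneg h3] at h4
  have := le_abs_self (Real.exp (2 * (‖z‖ / b (n + 1))) - 1)
  linarith

theorem g_up (n : ℕ) {z : ℂ} (hz : ‖z‖ ≤ 64 * b n) : ‖g (n + 1) z‖ ≤ 1001/1000 := by
  have := g_near' n hz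
  have h2 := norm_add_le (g (n + 1) z - 1) 1
  rw [sub_add_cancel, norm_one] at h2
  linarith

theorem g_lo (n : ℕ) {z : ℂ} (hz : ‖z‖ ≤ 64 * b n) : 999/1000 ≤ ‖g (n + 1) z‖ := by
  have := g_near' n hz
  have h2 := norm_sub_le (g (n + 1) z) (g (n + 1) z - 1)
  rw [sub_sub_cancel, norm_one] at h2
  linarith

theorem g_split (n : ℕ) (z : ℂ) :
    g 0 z = (∏ k ∈ Finset.range n, (1 + -(z / (b k : ℂ)))) * g n z := by
  unfold g
  have := (g_mult n z).prod_mul_tprod_nat_mul' (f := fun k => (1 + -(z / (b k : ℂ)))) (k := n)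
  simpa using this.symm

theorem fn_eq (n : ℕ) (z : ℂ) : fn z = Q n z * (1 - z / b n) * g (n + 1) z := by
  unfold fn Q
  rw [g_split (n + 1) z, Finset.prod_range_succ]
  ring

theorem Q_succ (n : ℕ) (z : ℂ) : Q (n + 1) z = Q n z * (1 - z / b n) := by
  unfold Q
  rw [Finset.prod_range_succ]
  ring

end

end Pool.Agent.X282.BW
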