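import Pool.Agent.X282.BW.Est

/-!
Verification of the inequalities.
-/

set_option autoImplicit false

open Filter Topology Metric Set

namespace Pool.Agent.X282.BW

noncomputable section

/-- inner radii -/
def sg : ℕ → ℝ
  | 0 => 1 / 64
  | n + 1 => 64 * b n

/-- base radii -/
def ta : ℕ → ℝ
  | 0 => 1 / 2
  | n + 1 => 64 * b n * p (n + 1)

/-- `1/(n+2)` -/
def xx (n : ℕ) : ℝ := 1 / ((n : ℝ) + 2)

/-- outer radii -/
def rr (n : ℕ) : ℝ := (1 - xx n / 2) * b n

/-- inner radius of the ring -/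
def et (n : ℕ) : ℝ := 3 * xx n / 4 * b n

/-- outer radius of the ring -/
def et' (n : ℕ) : ℝ := xx n * b n

/-- test radii -/
def YY (n : ℕ) : ℝ := xx n / 16 * b (n + 1)

theorem xx_pos (n : ℕ) : 0 < xx n := by unfold xx; positivity

theorem xx_le (n : ℕ) : xx n ≤ 1 / 2 := by
  unfold xx
  apply one_div_le_one_div_of_le (by norm_num)
  have : (0:ℝ) ≤ n := Nat.cast_nonneg n
  linarith

theorem xx_mul (n : ℕ) : ((n : ℝ) + 2) * xx n = 1 := by
  unfold xx
  have : (n : ℝ) + 2 ≠ 0 := by positivity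
  field_simp

theorem rr_ge (n : ℕ) : 3 / 4 * b n ≤ rr n := by
  unfold rr
  have := xx_le n
  have := b_pos n
  apply mul_le_mul_of_nonneg_right _ (b_pos n).le
  linarith

/-- the growth inequality in convenient form -/
theorem hstar (n : ℕ) : 262144 * 64 ^ n * b n ≤ xx n ^ 2 * b (n + 1) := by
  have h := big n
  have hb := b_pos n
  have hx := xx_pos n
  rw [b_succ]
  have h2 : ((n : ℝ) + 2) ^ 2 * xx n ^ 2 = 1 := by
    rw [← mul_pow, xx_mul, one_pow]
  calc 262144 * 64 ^ n * b n = (262144 * 64 ^ n * ((n : ℝ) + 2) ^ 2) * (xx n ^ 2 * b n) := by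
        rw [mul_assoc _ _ (xx n ^ 2 * b n), ← mul_assoc (((n : ℝ) + 2) ^ 2), h2, one_mul]
    _ ≤ p (n + 1) ^ 4 * (xx n ^ 2 * b n) := mul_le_mul_of_nonneg_right h (by positivity)
    _ = _ := by ring

theorem hstar' (n : ℕ) : 262144 * b n ≤ xx n ^ 2 * b (n + 1) := by
  refine le_trans ?_ (hstar n)
  have hb := b_pos n
  have h1 : (1 : ℝ) ≤ 64 ^ n := one_le_pow₀ (by norm_num)
  nlinarith

theorem hstar'' (n : ℕ) : 524288 * b n ≤ xx n * b (n + 1) := by
  have h := hstar' n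
  have h1 := xx_le n
  have h2 := xx_pos n
  have h3 := b_pos (n + 1)
  have h4 : xx n ^ 2 * b (n + 1) ≤ 1/2 * (xx n * b (n + 1)) := by
    rw [sq]
    have : 0 < xx n * b (n + 1) := by positivity
    nlinarith
  linarith

/-- the factor of the zero `b n` -/
theorem fac (n : ℕ) (z : ℂ) : ‖1 - z / b n‖ = ‖z - b n‖ / b n := by
  have hb := b_pos n
  have hbc : (b n : ℂ) ≠ 0 := by exact_mod_cast hb.ne'
  have : 1 - z / b n = -(z - b n) / b n := by field_simp; ring
  rw [this, norm_div, norm_neg, Complex.norm_real, Real.norm_eq_abs, abs_of_pos hb]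

theorem norm_b (n : ℕ) : ‖((b n : ℝ) : ℂ)‖ = b n := by
  rw [Complex.norm_real, Real.norm_eq_abs, abs_of_pos (b_pos n)]

theorem fac_up (n : ℕ) {z : ℂ} {t : ℝ} (hz : ‖z‖ ≤ t * b n) : ‖1 - z / b n‖ ≤ 1 + t := by
  rw [fac, div_le_iff₀ (b_pos n)]
  have := norm_sub_le z (b n : ℂ)
  rw [norm_b] at this
  linarith

theorem fac_lo (n : ℕ) {z : ℂ} {t : ℝ} (hz : t * b n ≤ ‖z‖) : t - 1 ≤ ‖1 - z / b n‖ := by
  rw [fac, le_div_iff₀ (b_pos n)]
  have := norm_sub_norm_le z (b n : ℂ)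
  rw [norm_b] at this
  linarith

theorem fac_lo' (n : ℕ) {z : ℂ} {t : ℝ} (hz : ‖z‖ ≤ t * b n) : 1 - t ≤ ‖1 - z / b n‖ := by
  rw [fac, le_div_iff₀ (b_pos n)]
  have := norm_sub_norm_le (b n : ℂ) z
  rw [norm_b, norm_sub_rev] at this
  linarith

theorem norm_fn (n : ℕ) (z : ℂ) : ‖fn z‖ = ‖Q n z‖ * ‖1 - z / b n‖ * ‖g (n + 1) z‖ := by
  rw [fn_eq n, norm_mul, norm_mul]

/-- product of three upper bounds -/
theorem up3 {a b c A B C : ℝ} (h1 : a ≤ A) (h2 : b ≤ B) (h3 : c ≤ C) (hb : 0 ≤ b)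
    (hc : 0 ≤ c) (hA : 0 ≤ A) (hB : 0 ≤ B) : a * b * c ≤ A * B * C :=
  mul_le_mul (mul_le_mul h1 h2 hb hA) h3 hc (mul_nonneg hA hB)

theorem v_up (n : ℕ) (z : ℂ) (hz : ‖z‖ ≤ rr n) : ‖fn z‖ < rr (n + 1) := by
  have hx := xx_pos n
  have hx2 := xx_le n
  have hb := b_pos n
  have hb1 := b_pos (n + 1)
  have h1 := UP' n (t := 1 - xx n / 2) (by linarith) (z := z) hz
  have h2 := fac_up n (t := 1 - xx n / 2) (z := z) hz
  have h3 := g_up n (z := z) (by
    refine hz.trans ?_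
    unfold rr
    apply mul_le_mul_of_nonneg_right _ hb.le
    linarith)
  have h4 : (1 - xx n / 2) ^ (n + 1) ≤ 1 := pow_le_one₀ (by linarith) (by linarith)
  have h5 : 1001/1000 * ((1 - xx n / 2) ^ (n + 1) * b (n + 1) / 4) ≤ 1001/1000 * (b (n + 1) / 4) := by
    have : (1 - xx n / 2) ^ (n + 1) * b (n + 1) ≤ 1 * b (n + 1) :=
      mul_le_mul_of_nonneg_right h4 hb1.le
    linarith
  rw [norm_fn n]
  have h6 := up3 (h1.trans h5) (h2.trans (show 1 + (1 - xx n / 2) ≤ 2 by linarith)) h3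
    (norm_nonneg _) (norm_nonneg _) (by positivity) (by norm_num)
  have h7 := rr_ge (n + 1)
  linarith

theorem pow64 (m : ℕ) : 64 * ((m : ℝ) + 3) ≤ 3 * 64 ^ (m + 1) := by
  induction m with
  | zero => norm_num
  | succ m ih =>
    rw [pow_succ (64 : ℝ) (m + 1)]
    push_cast
    have : (0:ℝ) ≤ m := Nat.cast_nonneg m
    nlinarith

theorem pow64x (m : ℕ) : 64 / 3 ≤ 64 ^ (m + 1) * xx (m + 1) := by
  have h := pow64 m
  have h2 := xx_mul (m + 1)
  have h3 := xx_pos (m + 1)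
  push_cast at h2
  have h4 : 64 * ((m : ℝ) + 3) * xx (m + 1) ≤ 3 * 64 ^ (m + 1) * xx (m + 1) :=
    mul_le_mul_of_nonneg_right h h3.le
  have h5 : 64 * ((m : ℝ) + 3) * xx (m + 1) = 64 * (((m : ℝ) + 1 + 2) * xx (m + 1)) := by ring
  rw [h5, h2] at h4
  linarith

theorem Q0 (z : ℂ) : ‖Q 0 z‖ = 262144 * ‖z‖ := by
  have h2 : Q 0 z = 262144 * z := by simp [Q]
  rw [h2, norm_mul]
  norm_num

theorem v_low (n : ℕ) (z : ℂ) (hz : sg n ≤ ‖z‖) (hz2 : ‖z‖ ≤ rr n) : sg (n + 1) < ‖fn z‖ := by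
  have hx := xx_pos n
  have hx2 := xx_le n
  have hb := b_pos n
  have hb1 := b_pos (n + 1)
  have h2 := fac_lo' n (t := 1 - xx n / 2) (z := z) hz2
  have h3 := g_lo n (z := z) (by
    refine hz2.trans ?_
    unfold rr
    apply mul_le_mul_of_nonneg_right _ hb.le
    linarith)
  rw [norm_fn n]
  cases n with
  | zero =>
    have h1 : 4096 ≤ ‖Q 0 z‖ := by
      rw [Q0]
      have : (1:ℝ) / 64 ≤ ‖z‖ := hz
      linarith
    have hx0 : xx 0 = 1/2 := by unfold xx; norm_num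
    rw [hx0] at h2
    have h4 := up3 h1 h2 h3 (by norm_num) (by norm_num) (norm_nonneg _) (norm_nonneg _)
    have : sg (0 + 1) = 64 := by simp [sg, b_zero]
    rw [this]
    norm_num at h4 ⊢
    linarith
  | succ m =>
    have hz' : 64 * b m ≤ ‖z‖ := hz
    have h1 := LO' m (t := 64) (by norm_num) hz'
    have h1' := fac_lo m hz'
    have h1'' : 999/1000 * (64 ^ (m + 1) * b (m + 1) / 4) * 63 ≤ ‖Q (m + 1) z‖ := by
      rw [Q_succ, norm_mul]
      apply mul_le_mul h1 (by linarith) (by norm_num) (norm_nonneg _)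
    have h4 := up3 h1'' h2 h3 (by linarith) (by norm_num) (norm_nonneg _) (norm_nonneg _)
    have h5 := pow64x m
    have e : sg (m + 1 + 1) = 64 * b (m + 1) := rfl
    rw [e]
    refine lt_of_lt_of_le ?_ h4
    have e2 : 999/1000 * (64 ^ (m + 1) * b (m + 1) / 4) * 63 * (1 - (1 - xx (m + 1) / 2)) *
        (999/1000) = (999/1000 * 63 / 8 * (999/1000)) * (64 ^ (m + 1) * xx (m + 1)) * b (m + 1) := by
      ring
    rw [e2]
    apply mul_lt_mul_of_pos_right _ hb
    linarith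

theorem v_lowτ (n : ℕ) (z : ℂ) (hz : ta n ≤ ‖z‖) (hz2 : ‖z‖ ≤ rr n) : ta (n + 1) ≤ ‖fn z‖ := by
  have hx := xx_pos n
  have hx2 := xx_le n
  have hb := b_pos n
  have hb1 := b_pos (n + 1)
  have h2 := fac_lo' n (t := 1 - xx n / 2) (z := z) hz2
  have h3 := g_lo n (z := z) (by
    refine hz2.trans ?_
    unfold rr
    apply mul_le_mul_of_nonneg_right _ hb.le
    linarith)
  rw [norm_fn n]
  cases n with
  | zero =>
    have h1 : 131072 ≤ ‖Q 0 z‖ := by
      rw [Q0]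
      have : (1:ℝ) / 2 ≤ ‖z‖ := hz
      linarith
    have hx0 : xx 0 = 1/2 := by unfold xx; norm_num
    rw [hx0] at h2
    have h4 := up3 h1 h2 h3 (by norm_num) (by norm_num) (norm_nonneg _) (norm_nonneg _)
    have : ta (0 + 1) = 2048 := by simp [ta, b_zero, p]; norm_num
    rw [this]
    norm_num at h4 ⊢
    linarith
  | succ m =>
    have hz' : 64 * p (m + 1) * b m ≤ ‖z‖ := by
      have : 64 * b m * p (m + 1) ≤ ‖z‖ := hz
      linarith
    have hp := p_ge (m + 1)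
    set t := 64 * p (m + 1) with ht
    have ht2 : 2048 ≤ t := by linarith
    have h1 := LO' m (t := t) (by linarith) hz'
    have h1' := fac_lo m hz'
    have h1'' : 999/1000 * (t ^ (m + 1) * b (m + 1) / 4) * (999/1000 * t) ≤ ‖Q (m + 1) z‖ := by
      rw [Q_succ, norm_mul]
      apply mul_le_mul h1 (by linarith) (by positivity) (norm_nonneg _)
    have h4 := up3 h1'' h2 h3 (by linarith) (by norm_num) (norm_nonneg _) (norm_nonneg _)
    have h5 := pow64x m
    have e : ta (m + 1 + 1) = 64 * b (m + 1) * p (m + 2) := rfl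
    have e3 : t ^ (m + 1) * t = 64 ^ (m + 1) * 64 * p (m + 2) := by
      have : p (m + 2) = p (m + 1) ^ (m + 2) := p_succ (m + 1)
      rw [this, ← pow_succ, ← pow_succ, ht, mul_pow]
    rw [e]
    refine le_trans ?_ h4
    have e2 : 999/1000 * (t ^ (m + 1) * b (m + 1) / 4) * (999/1000 * t) *
        (1 - (1 - xx (m + 1) / 2)) * (999/1000) =
        (999/1000 * (999/1000) * (999/1000) / 8) * (t ^ (m + 1) * t) * xx (m + 1) * b (m + 1) := by
      ring
    rw [e2, e3]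
    have e4 : (999/1000 * (999/1000) * (999/1000) / 8) * (64 ^ (m + 1) * 64 * p (m + 2)) *
        xx (m + 1) * b (m + 1) = ((999/1000 * (999/1000) * (999/1000) / 8) * 64 *
        (64 ^ (m + 1) * xx (m + 1))) * (b (m + 1) * p (m + 2)) := by ring
    rw [e4]
    have hpp := p_pos (m + 2)
    have : 64 * b (m + 1) * p (m + 2) = 64 * (b (m + 1) * p (m + 2)) := by ring
    rw [this]
    apply mul_le_mul_of_nonneg_right _ (by positivity)
    linarith

theorem z_near (n : ℕ) {z : ℂ} (hz : ‖z - b n‖ ≤ et' n) :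
    (1 - xx n) * b n ≤ ‖z‖ ∧ ‖z‖ ≤ (1 + xx n) * b n := by
  unfold et' at hz
  have h4 : ‖z‖ ≤ ‖z - b n‖ + ‖((b n : ℝ) : ℂ)‖ := by
    have := norm_add_le (z - b n) ((b n : ℝ) : ℂ)
    rwa [sub_add_cancel] at this
  have h5 : ‖((b n : ℝ) : ℂ)‖ ≤ ‖z - b n‖ + ‖z‖ := by
    have := norm_sub_le z (z - b n)
    rw [sub_sub_cancel] at this
    linarith
  rw [norm_b] at h4 h5
  constructor <;> linarith

theorem v_cU (n : ℕ) (z : ℂ) (hz : ‖z - b n‖ ≤ et' n) : ‖fn z‖ < rr (n + 1) := by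
  have hx := xx_pos n
  have hx2 := xx_le n
  have hb := b_pos n
  have hb1 := b_pos (n + 1)
  obtain ⟨z1, z2⟩ := z_near n hz
  have h1 := UP' n (t := 1 + xx n) (by linarith) z2
  have h2 : ‖1 - z / b n‖ ≤ 1 / 2 := by
    rw [fac, div_le_iff₀ hb]
    unfold et' at hz
    have : xx n * b n ≤ 1/2 * b n := mul_le_mul_of_nonneg_right hx2 hb.le
    linarith
  have h3 := g_up n (z := z) (by
    refine z2.trans ?_
    apply mul_le_mul_of_nonneg_right _ hb.le
    linarith)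
  have h4 : (1 + xx n) ^ (n + 1) ≤ 3 := by
    have e1 : 1 + xx n ≤ Real.exp (xx n) := by
      have := Real.add_one_le_exp (xx n)
      linarith
    have e2 : (1 + xx n) ^ (n + 1) ≤ Real.exp (xx n) ^ (n + 1) :=
      pow_le_pow_left₀ (by linarith) e1 _
    have e3 : Real.exp (xx n) ^ (n + 1) ≤ Real.exp 1 := by
      rw [← Real.exp_nat_mul]
      apply Real.exp_le_exp.2
      have := xx_mul n
      push_cast
      nlinarith
    have := Real.exp_one_lt_d9
    linarith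
  have h5 : 1001/1000 * ((1 + xx n) ^ (n + 1) * b (n + 1) / 4) ≤
      1001/1000 * (3 * b (n + 1) / 4) := by
    have : (1 + xx n) ^ (n + 1) * b (n + 1) ≤ 3 * b (n + 1) :=
      mul_le_mul_of_nonneg_right h4 hb1.le
    linarith
  rw [norm_fn n]
  have h6 := up3 (h1.trans h5) h2 h3
    (norm_nonneg _) (norm_nonneg _) (by positivity) (by norm_num)
  have h7 := rr_ge (n + 1)
  linarith

theorem v_cL (n : ℕ) (z : ℂ) (hz1 : et n ≤ ‖z - b n‖) (hz : ‖z - b n‖ ≤ et' n) :
    sg (n + 1) < ‖fn z‖ := by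
  have hx := xx_pos n
  have hx2 := xx_le n
  have hb := b_pos n
  have hb1 := b_pos (n + 1)
  obtain ⟨z1, z2⟩ := z_near n hz
  have h1 := LO' n (t := 1 - xx n) (by linarith) z1
  have h2 : 3 * xx n / 4 ≤ ‖1 - z / b n‖ := by
    rw [fac, le_div_iff₀ hb]
    exact hz1
  have h3 := g_lo n (z := z) (by
    refine z2.trans ?_
    apply mul_le_mul_of_nonneg_right _ hb.le
    linarith)
  have h4 : xx n ≤ (1 - xx n) ^ (n + 1) := by
    have := one_add_mul_le_pow (a := -xx n) (by linarith) (n + 1)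
    have h5 := xx_mul n
    push_cast at this
    have e : 1 + -xx n = 1 - xx n := by ring
    rw [e] at this
    nlinarith
  have h5 : 999/1000 * (xx n * b (n + 1) / 4) ≤
      999/1000 * ((1 - xx n) ^ (n + 1) * b (n + 1) / 4) := by
    have : xx n * b (n + 1) ≤ (1 - xx n) ^ (n + 1) * b (n + 1) :=
      mul_le_mul_of_nonneg_right h4 hb1.le
    linarith
  rw [norm_fn n]
  have h6 := up3 (h5.trans h1) h2 h3 (by positivity) (by norm_num) (norm_nonneg _) (norm_nonneg _)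
  have h7 := hstar' n
  have e : sg (n + 1) = 64 * b n := rfl
  rw [e]
  refine lt_of_lt_of_le ?_ h6
  have e2 : 999/1000 * (xx n * b (n + 1) / 4) * (3 * xx n / 4) * (999/1000) =
    (999/1000 * (3/16) * (999/1000)) * (xx n ^ 2 * b (n + 1)) := by ring
  rw [e2]
  have : 0 < xx n ^ 2 * b (n + 1) := by positivity
  linarith

theorem v_Y1 (n : ℕ) : sg (n + 1) < YY n ∧ YY n < rr (n + 1) := by
  have h1 := hstar'' n
  have hb := b_pos n
  have hb1 := b_pos (n + 1)
  have hx := xx_pos n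
  have hx2 := xx_le n
  have h7 := rr_ge (n + 1)
  have e : sg (n + 1) = 64 * b n := rfl
  rw [e]
  unfold YY
  have : 0 < xx n * b (n + 1) := by positivity
  constructor
  · nlinarith
  · nlinarith

theorem v_Y2 (n : ℕ) (z : ℂ) (hz : ‖z‖ ≤ sg n) : ‖fn z‖ < YY n := by
  cases n with
  | zero =>
    have hz' : ‖z‖ ≤ 1/64 := hz
    rw [norm_fn 0]
    have h1 : ‖Q 0 z‖ ≤ 4096 := by rw [Q0]; linarith
    have h2 := fac_up 0 (t := 1/64) (z := z) (by rw [b_zero]; linarith)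
    have h3 := g_up 0 (z := z) (by rw [b_zero]; linarith)
    have h6 := up3 h1 h2 h3 (norm_nonneg _) (norm_nonneg _) (by norm_num) (by norm_num)
    have hx0 : xx 0 = 1/2 := by unfold xx; norm_num
    have : YY 0 = 32768 := by
      unfold YY
      rw [hx0, b_succ, b_zero]
      simp [p]
      norm_num
    rw [this]
    norm_num at h6 ⊢
    linarith
  | succ m =>
    have hz' : ‖z‖ ≤ 64 * b m := hz
    rw [norm_fn m]
    have h1 := UP' m (t := 64) (by norm_num) hz'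
    have h2 := fac_up m hz'
    have h3 := g_up m hz'
    have hb1 := b_pos (m + 1)
    have h6 := up3 h1 h2 h3 (norm_nonneg _) (norm_nonneg _) (by positivity) (by norm_num)
    have h7 := hstar (m + 1)
    have hx := xx_pos (m + 1)
    have hx2 := xx_le (m + 1)
    have hb2 := b_pos (m + 2)
    have h8 : xx (m + 1) ^ 2 * b (m + 2) ≤ 1/2 * (xx (m + 1) * b (m + 2)) := by
      rw [sq]
      have : 0 < xx (m + 1) * b (m + 2) := by positivity
      nlinarith
    have h9 : 0 < xx (m + 1) * b (m + 2) := by positivity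
    unfold YY
    have e : xx (m + 1) / 16 * b (m + 1 + 1) = xx (m + 1) * b (m + 2) / 16 := by ring
    rw [e]
    have e3 : 262144 * 64 ^ (m + 1) * b (m + 1) = 262144 * (64 ^ (m + 1) * b (m + 1)) := by ring
    rw [e3] at h7
    have h7' : 262144 * (64 ^ (m + 1) * b (m + 1)) ≤ xx (m + 1) ^ 2 * b (m + 2) := h7
    refine lt_of_le_of_lt h6 ?_
    have e2 : 1001/1000 * (64 ^ (m + 1) * b (m + 1) / 4) * (1 + 64) * (1001/1000) =
      (1001/1000 * 65 / 4 * (1001/1000)) * (64 ^ (m + 1) * b (m + 1)) := by ring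
    rw [e2]
    linarith

theorem v_Y3 (n : ℕ) (z : ℂ) (h0 : rr n ≤ ‖z‖) (h0' : ‖z‖ ≤ sg (n + 1))
    (hz1 : et n ≤ ‖z - b n‖) : YY n < ‖fn z‖ := by
  have hx := xx_pos n
  have hx2 := xx_le n
  have hb := b_pos n
  have hb1 := b_pos (n + 1)
  have h1 := LO' n (t := 1 - xx n / 2) (by linarith) h0
  have h2 : 3 * xx n / 4 ≤ ‖1 - z / b n‖ := by
    rw [fac, le_div_iff₀ hb]
    exact hz1
  have h3 := g_lo n (z := z) h0'
  have h4 : 1 / 2 ≤ (1 - xx n / 2) ^ (n + 1) := by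
    have := one_add_mul_le_pow (a := -(xx n / 2)) (by linarith) (n + 1)
    have h5 := xx_mul n
    push_cast at this
    have e : 1 + -(xx n / 2) = 1 - xx n / 2 := by ring
    rw [e] at this
    nlinarith
  have h5 : 999/1000 * (1/2 * b (n + 1) / 4) ≤
      999/1000 * ((1 - xx n / 2) ^ (n + 1) * b (n + 1) / 4) := by
    have : 1/2 * b (n + 1) ≤ (1 - xx n / 2) ^ (n + 1) * b (n + 1) :=
      mul_le_mul_of_nonneg_right h4 hb1.le
    linarith
  rw [norm_fn n]
  have h6 := up3 (h5.trans h1) h2 h3 (by positivity) (by norm_num) (norm_nonneg _) (norm_nonneg _)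
  refine lt_of_lt_of_le ?_ h6
  unfold YY
  have e2 : 999/1000 * (1/2 * b (n + 1) / 4) * (3 * xx n / 4) * (999/1000) =
    (999/1000 * (3/32) * (999/1000)) * (xx n * b (n + 1)) := by ring
  rw [e2]
  have : 0 < xx n * b (n + 1) := by positivity
  linarith

end

end Pool.Agent.X282.BW
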